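import Mathlib
import Pool.Agent.MP_6c678b_al.NilFilt

section

/-! The free group of rank two, its exponent sums, the affine group of a ring and a
Koszul-type lemma for polynomials in two variables. -/

set_option autoImplicit false

namespace Pool.Agent.MP_6c678b_al.Nil

open scoped commutatorElement
open Polynomial

abbrev F : Type := FreeGroup (Fin 2)

def ga : F := FreeGroup.of 0
def gb : F := FreeGroup.of 1
def kap : F := ⁅ga, gb⁆

theorem hom_ext {G : Type*} [Group G] {f g : F →* G} (ha : f ga = g ga) (hb : f gb = g gb) :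
    f = g := by
  ext i
  fin_cases i
  · exact ha
  · exact hb

def ex (i : Fin 2) : F →* Multiplicative ℤ :=
  FreeGroup.lift fun j => Multiplicative.ofAdd (if i = j then 1 else 0)

/-- Exponent sum of the `i`-th generator. -/
def e (i : Fin 2) (z : F) : ℤ := (ex i z).toAdd

theorem e_mul (i : Fin 2) (z w : F) : e i (z * w) = e i z + e i w := by simp [e]
theorem e_inv (i : Fin 2) (z : F) : e i z⁻¹ = - e i z := by simp [e]
theorem e_one (i : Fin 2) : e i 1 = 0 := by simp [e]
theorem e_of (i j : Fin 2) : e i (FreeGroup.of j) = if i = j then 1 else 0 := by simp [e, ex]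

theorem comm_formula {C : Type*} [CommGroup C] (f : F →* C) (z : F) :
    f z = f ga ^ e 0 z * f gb ^ e 1 z := by
  induction z using FreeGroup.induction_on with
  | C1 => simp [e_one]
  | of i => fin_cases i <;> simp [e_of, ga, gb]
  | inv_of i ih => rw [map_inv, ih, e_inv, e_inv, zpow_neg, zpow_neg, mul_inv]
  | mul x y hx hy => rw [map_mul, hx, hy, e_mul, e_mul, zpow_add, zpow_add, mul_mul_mul_comm]

theorem commute_all {G : Type*} [Group G] (f : F →* G) (h : Commute (f ga) (f gb)) (z w : F) :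
    Commute (f z) (f w) := by
  have h1 : ∀ i j : Fin 2, Commute (f (FreeGroup.of i)) (f (FreeGroup.of j)) := by
    intro i j
    fin_cases i <;> fin_cases j
    · exact Commute.refl _
    · exact h
    · exact h.symm
    · exact Commute.refl _
  have h2 : ∀ i : Fin 2, ∀ w, Commute (f (FreeGroup.of i)) (f w) := by
    intro i w
    induction w using FreeGroup.induction_on with
    | C1 => simp
    | of j => exact h1 i j
    | inv_of j ih => rw [map_inv]; exact ih.inv_right
    | mul x y hx hy => rw [map_mul]; exact hx.mul_right hy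
  induction z using FreeGroup.induction_on with
  | C1 => simp
  | of j => exact h2 j w
  | inv_of j ih => rw [map_inv]; exact ih.inv_left
  | mul x y hx hy => rw [map_mul]; exact hx.mul_left hy

theorem commutator_le_of_kap (P : Subgroup F) [P.Normal] (h : kap ∈ P) : commutator F ≤ P := by
  rw [commutator_def, Subgroup.commutator_le]
  intro z _ w _
  rw [← QuotientGroup.eq_one_iff, ← QuotientGroup.mk'_apply, map_commutatorElement,
    commutatorElement_eq_one_iff_commute]
  apply commute_all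
  rw [← commutatorElement_eq_one_iff_commute, ← map_commutatorElement, QuotientGroup.mk'_apply,
    QuotientGroup.eq_one_iff]
  exact h

/-- The affine group: matrices `[[y, n], [0, 1]]`. -/
@[ext] structure Aff (S : Type*) [CommRing S] where
  y : Sˣ
  n : S

namespace Aff

variable {S : Type*} [CommRing S]

instance : Mul (Aff S) := ⟨fun g h => ⟨g.y * h.y, g.y * h.n + g.n⟩⟩
instance : One (Aff S) := ⟨⟨1, 0⟩⟩
instance : Inv (Aff S) := ⟨fun g => ⟨g.y⁻¹, -(↑g.y⁻¹ * g.n)⟩⟩

@[simp] theorem mul_y (g h : Aff S) : (g * h).y = g.y * h.y := rfl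
@[simp] theorem mul_n (g h : Aff S) : (g * h).n = g.y * h.n + g.n := rfl
@[simp] theorem one_y : (1 : Aff S).y = 1 := rfl
@[simp] theorem one_n : (1 : Aff S).n = 0 := rfl
@[simp] theorem inv_y (g : Aff S) : g⁻¹.y = g.y⁻¹ := rfl
@[simp] theorem inv_n (g : Aff S) : g⁻¹.n = -(↑g.y⁻¹ * g.n) := rfl

instance : Group (Aff S) :=
  Group.ofLeftAxioms
    (fun g h k => by ext <;> simp <;> ring)
    (fun g => by ext <;> simp)
    (fun g => by ext <;> simp)

instance [Finite S] : Finite (Aff S) :=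
  Finite.of_injective (fun g : Aff S => (g.y, g.n)) (fun g h hh => by
    simp only [Prod.mk.injEq] at hh
    exact Aff.ext hh.1 hh.2)

def yHom : Aff S →* Sˣ where
  toFun := Aff.y
  map_one' := rfl
  map_mul' _ _ := rfl

theorem pow_y (g : Aff S) (k : ℕ) : (g ^ k).y = g.y ^ k := map_pow yHom g k

theorem pow_n (g : Aff S) (k : ℕ) :
    (g ^ k).n = (∑ i ∈ Finset.range k, (g.y : S) ^ i) * g.n := by
  induction k with
  | zero => simp
  | succ k ih => rw [pow_succ, mul_n, ih, pow_y, Finset.sum_range_succ]; push_cast; ring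

theorem pow_eq_one (g : Aff S) (hy : g.y = 1) (k : ℕ) (hk : (k : S) = 0) : g ^ k = 1 := by
  ext
  · simp [pow_y, hy]
  · simp [pow_n, hy, hk]

theorem comm_y (g h : Aff S) : (⁅g, h⁆ : Aff S).y = 1 := by
  simp [commutatorElement_def]

theorem comm_n (g h : Aff S) : (⁅g, h⁆ : Aff S).n = (1 - h.y) * g.n + (g.y - 1) * h.n := by
  have a := g.y.mul_inv
  have b := h.y.mul_inv
  simp only [commutatorElement_def, mul_n, mul_y, inv_n, inv_y, Units.val_mul]
  linear_combination (-(h.y * ↑h.y⁻¹ * h.n) - h.y * g.n) * a - h.n * b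

end Aff

theorem geom_sq {A : Type*} [CommRing A] (n : ℕ) (hn : (n : A) = 0) (z : A) :
    ∃ q, ∑ i ∈ Finset.range (n * n), z ^ i = (z - 1) * (z ^ n - 1) * q := by
  have h1 : ∀ w : A, ∃ q, ∑ i ∈ Finset.range n, w ^ i = (w - 1) * q := by
    intro w
    have : (w - 1) ∣ ∑ i ∈ Finset.range n, w ^ i - ∑ _i ∈ Finset.range n, (1 : A) := by
      rw [← Finset.sum_sub_distrib]
      exact Finset.dvd_sum fun i _ => by simpa using sub_dvd_pow_sub_pow w 1 i
    rw [Finset.sum_const, Finset.card_range, nsmul_eq_mul, hn, zero_mul, sub_zero] at this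
    exact this
  have h2 : ∀ m : ℕ, ∑ i ∈ Finset.range (n * m), z ^ i =
      (∑ i ∈ Finset.range n, z ^ i) * ∑ j ∈ Finset.range m, (z ^ n) ^ j := by
    intro m
    induction m with
    | zero => simp
    | succ m ih =>
      rw [Nat.mul_succ, Finset.sum_range_add, ih, Finset.sum_range_succ, mul_add, ← pow_mul]
      congr 1
      rw [Finset.sum_mul]
      exact Finset.sum_congr rfl fun i _ => by rw [pow_add, mul_comm]
  obtain ⟨q₁, h₁⟩ := h1 z
  obtain ⟨q₂, h₂⟩ := h1 (z ^ n)
  exact ⟨q₁ * q₂, by rw [h2, h₁, h₂]; ring⟩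

theorem dvd_of_eval {k : Type*} [CommRing k] (p : k[X]) (hp : p.Monic) (γ : k[X][X])
    (h : (X - 1 : k[X][X]) ∣ C p * γ) : (X - 1 : k[X][X]) ∣ γ := by
  have e : (X - 1 : k[X][X]) = X - C 1 := by simp
  rw [e, dvd_iff_isRoot] at h ⊢
  rw [IsRoot.def, eval_mul, eval_C] at h
  exact (hp.mul_right_eq_zero_iff).1 h

theorem koszul {k : Type*} [CommRing k] (n : ℕ) (hn0 : n ≠ 0) (hn : (n : k) = 0)
    (l₁ l₂ : k[X][X])
    (h : ((1 - C X) * l₁ + (X - 1) * l₂) * (X - 1) ∈
      Ideal.span {(X ^ (n * n) - 1 : k[X][X]), C X ^ (n * n) - 1}) :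
    ∃ η : k[X][X], l₁ - (X - 1) * η ∈ Ideal.span {(X ^ n - 1 : k[X][X]), C X ^ n - 1} ∧
      l₂ - (C X - 1) * η ∈ Ideal.span {(X ^ n - 1 : k[X][X]), C X ^ n - 1} := by
  have hn' : (n : k[X][X]) = 0 := by
    rw [← map_natCast (C : k[X] →+* k[X][X]), ← map_natCast (C : k →+* k[X]), hn]; simp
  have hm : (X - 1 : k[X][X]).Monic := by simpa using monic_X_sub_C (1 : k[X])
  have hm' : (X - 1 : k[X]).Monic := by simpa using monic_X_sub_C (1 : k)
  have hmN : (X ^ (n * n) - 1 : k[X]).Monic := by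
    simpa using monic_X_pow_sub_C (1 : k) (mul_ne_zero hn0 hn0)
  obtain ⟨β, γ, hβ⟩ := Ideal.mem_span_pair.1 h
  obtain ⟨q, hq⟩ := geom_sq n hn' (X : k[X][X])
  obtain ⟨q', hq'⟩ := geom_sq n hn' (C X : k[X][X])
  have g1 := mul_geom_sum (X : k[X][X]) (n * n)
  have g2 := mul_geom_sum (C X : k[X][X]) (n * n)
  rw [hq] at g1
  rw [hq'] at g2
  obtain ⟨γ', hγ⟩ : (X - 1 : k[X][X]) ∣ γ := by
    apply dvd_of_eval _ hmN
    refine ⟨(1 - C X) * l₁ + (X - 1) * l₂ - β * ((X - 1) * (X ^ n - 1) * q), ?_⟩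
    simp only [map_sub, map_pow, map_one]
    linear_combination hβ + β * g1
  have s1 : (1 - C X) * (l₁ + (C X - 1) * (C X ^ n - 1) * q' * γ') +
      (X - 1) * (l₂ - β * (X ^ n - 1) * q) = 0 := by
    apply hm.mul_right_eq_zero_iff.1
    rw [hγ] at hβ
    linear_combination -hβ - β * g1 - (X - 1) * γ' * g2
  obtain ⟨η, hη⟩ : (X - 1 : k[X][X]) ∣ l₁ + (C X - 1) * (C X ^ n - 1) * q' * γ' := by
    apply dvd_of_eval _ hm'
    refine ⟨l₂ - β * (X ^ n - 1) * q, ?_⟩
    simp only [map_sub, map_one]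
    linear_combination -s1
  have s2 : (1 - C X) * η + (l₂ - β * (X ^ n - 1) * q) = 0 := by
    apply hm.mul_right_eq_zero_iff.1
    rw [hη] at s1
    linear_combination s1
  refine ⟨η, Ideal.mem_span_pair.2 ⟨0, -((C X - 1) * q' * γ'), ?_⟩,
    Ideal.mem_span_pair.2 ⟨β * q, 0, ?_⟩⟩
  · linear_combination -hη
  · linear_combination -s2

end Pool.Agent.MP_6c678b_al.Nil

end

section

/-! An endomorphism of the free group of rank two that fixes the commutator of the generators and
is congruent to the identity on the abelianization modulo `n ^ 3` is inner on every quotient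
of exponent dividing `n` with abelian derived subgroup. -/

set_option autoImplicit false

namespace Pool.Agent.MP_6c678b_al.Nil

open scoped commutatorElement
open Polynomial

theorem decomp (z : F) : ∃ c ∈ commutator F, z = c * (ga ^ e 0 z * gb ^ e 1 z) := by
  refine ⟨z * (ga ^ e 0 z * gb ^ e 1 z)⁻¹, ?_, by group⟩
  rw [← Abelianization.ker_of, MonoidHom.mem_ker, map_mul, map_inv, map_mul, map_zpow, map_zpow,
    ← comm_formula, mul_inv_cancel]

theorem zpow_congr {G : Type*} [Group G] (g : G) (L : ℕ) (h : g ^ L = 1) (s t : ℤ)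
    (hst : (L : ℤ) ∣ s - t) : g ^ s = g ^ t := by
  obtain ⟨k, hk⟩ := hst
  have : s = t + L * k := by linear_combination hk
  rw [this, zpow_add, zpow_mul, zpow_natCast, h, one_zpow, mul_one]

/-- The congruence condition on the exponent matrix of an endomorphism. -/
def Cong (L : ℕ) (σ : F →* F) : Prop :=
  ∀ i j : Fin 2, (L : ℤ) ∣ e i (σ (FreeGroup.of j)) - (if i = j then 1 else 0)

theorem Cong.decomp {L : ℕ} {σ : F →* F} (h : Cong L σ) {G : Type*} [Group G] (f : F →* G)
    (ha : f ga ^ L = 1) (hb : f gb ^ L = 1) :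
    (∃ c ∈ commutator F, f (σ ga) = f c * f ga) ∧ ∃ c ∈ commutator F, f (σ gb) = f c * f gb := by
  constructor
  · obtain ⟨c, hc, hz⟩ := Nil.decomp (σ ga)
    refine ⟨c, hc, ?_⟩
    rw [hz, map_mul, map_mul, map_zpow, map_zpow, zpow_congr _ L ha (e 0 (σ ga)) 1 (h 0 0),
      zpow_congr _ L hb (e 1 (σ ga)) 0 (h 1 0)]
    simp
  · obtain ⟨c, hc, hz⟩ := Nil.decomp (σ gb)
    refine ⟨c, hc, ?_⟩
    rw [hz, map_mul, map_mul, map_zpow, map_zpow, zpow_congr _ L ha (e 0 (σ gb)) 0 (h 0 1),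
      zpow_congr _ L hb (e 1 (σ gb)) 1 (h 1 1)]
    simp

universe u

theorem inner_aux {H : Type*} [Group H] (π : F →* H) {R : Type u} [CommRing R] (n : ℕ)
    (hn0 : n ≠ 0) (hn : (n : R) = 0) (hpow : ∀ h : H, h ^ n = 1) (cj : H →* R)
    (act : Multiplicative R →* H) (h1 : act (Multiplicative.ofAdd 1) = π kap)
    (hc : ∀ h r, h * act (Multiplicative.ofAdd r) * h⁻¹ = act (Multiplicative.ofAdd (cj h * r)))
    (σ : F →* F) (hκ : σ kap = kap) (hσ : Cong (n * n * n) σ) :
    ∃ g : H, ∀ z, π (σ z) = g * π z * g⁻¹ := by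
  have hnn : n * n ≠ 0 := mul_ne_zero hn0 hn0
  let ev : R[X][X] →+* R := (evalRingHom (cj (π gb))).comp (evalRingHom (C (cj (π ga))))
  have evX : ev X = cj (π ga) := by simp [ev]
  have evY : ev (C X) = cj (π gb) := by simp [ev]
  let I : Ideal R[X][X] := Ideal.span {(X ^ (n * n) - 1 : R[X][X]), C X ^ (n * n) - 1}
  obtain ⟨S, _, mk, hmk⟩ : ∃ (S : Type u) (_ : CommRing S) (mk : R[X][X] →+* S),
      ∀ p, mk p = 0 ↔ p ∈ I :=
    ⟨R[X][X] ⧸ I, inferInstance, Ideal.Quotient.mk I, fun _ => Ideal.Quotient.eq_zero_iff_mem⟩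
  have hx : mk X ^ (n * n) = 1 := by
    rw [← sub_eq_zero, ← map_pow, ← map_one mk, ← map_sub, hmk]
    exact Ideal.subset_span (by simp)
  have hy : mk (C X) ^ (n * n) = 1 := by
    rw [← sub_eq_zero, ← map_pow, ← map_one mk, ← map_sub, hmk]
    exact Ideal.subset_span (by simp)
  have hnS : (n : S) = 0 := by
    rw [← map_natCast mk, ← map_natCast (C : R[X] →+* R[X][X]), ← map_natCast (C : R →+* R[X]), hn]
    simp
  let xu : Sˣ := Units.ofPowEqOne _ _ hx hnn
  let yu : Sˣ := Units.ofPowEqOne _ _ hy hnn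
  have xv : (xu : S) = mk X := rfl
  have yv : (yu : S) = mk (C X) := rfl
  have xp : xu ^ (n * n) = 1 := Units.ext hx
  have yp : yu ^ (n * n) = 1 := Units.ext hy
  let μ : F →* Aff S := FreeGroup.lift ![⟨xu, 0⟩, ⟨yu, 1⟩]
  have μa : μ ga = ⟨xu, 0⟩ := by simp [μ, ga]
  have μb : μ gb = ⟨yu, 1⟩ := by simp [μ, gb]
  have hgen : ∀ i : Fin 2, (μ (FreeGroup.of i)).y ^ (n * n) = 1 ∧
      ∃ m, ((μ (FreeGroup.of i)).y : S) = mk m ∧ ev m = cj (π (FreeGroup.of i)) := by
    intro i
    fin_cases i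
    · change (μ ga).y ^ (n * n) = 1 ∧ ∃ m, ((μ ga).y : S) = mk m ∧
        ev m = cj (π ga)
      rw [μa]
      exact ⟨xp, X, xv, evX⟩
    · change (μ gb).y ^ (n * n) = 1 ∧ ∃ m, ((μ gb).y : S) = mk m ∧
        ev m = cj (π gb)
      rw [μb]
      exact ⟨yp, C X, yv, evY⟩
  have hQ : ∀ g, ∃ m, ((μ g).y : S) = mk m ∧ ev m = cj (π g) := by
    intro g
    induction g using FreeGroup.induction_on with
    | C1 => exact ⟨1, by simp, by simp⟩
    | of i => exact (hgen i).2
    | inv_of i ih =>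
      obtain ⟨m, hm1, hm2⟩ := ih
      obtain ⟨N, hN⟩ := Nat.exists_eq_succ_of_ne_zero hnn
      refine ⟨m ^ N, ?_, ?_⟩
      · rw [map_inv, Aff.inv_y, map_pow, ← hm1, ← Units.val_pow_eq_pow_val]
        congr 1
        rw [inv_eq_iff_mul_eq_one, ← pow_succ', ← Nat.succ_eq_add_one, ← hN]
        exact (hgen i).1
      · rw [map_pow, hm2, ← map_pow, map_inv]
        congr 1
        rw [eq_inv_iff_mul_eq_one, ← pow_succ, ← Nat.succ_eq_add_one, ← hN, pow_mul, hpow]
    | mul x y hx hy =>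
      obtain ⟨m, hm1, hm2⟩ := hx
      obtain ⟨m', hm1', hm2'⟩ := hy
      exact ⟨m * m', by simp [hm1, hm1'], by simp [hm2, hm2']⟩
  let P : Subgroup F :=
    { carrier := {c | ∃ l, (μ c).y = 1 ∧ (μ c).n = mk (l * (X - 1)) ∧
        π c = act (Multiplicative.ofAdd (ev l))}
      one_mem' := ⟨0, by simp, by simp, by simp⟩
      mul_mem' := by
        rintro c d ⟨l, a1, a2, a3⟩ ⟨l', b1, b2, b3⟩
        refine ⟨l + l', by simp [a1, b1], ?_, by simp [a3, b3]⟩
        simp only [map_mul μ, Aff.mul_n, a1, a2, b2, Units.val_one, one_mul, ← map_add]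
        congr 1
        ring
      inv_mem' := by
        rintro c ⟨l, a1, a2, a3⟩
        refine ⟨-l, by simp [a1], by simp [a1, a2], by simp [a3]⟩ }
  have hPn : P.Normal := ⟨by
    rintro c ⟨l, a1, a2, a3⟩ g
    obtain ⟨m, hm1, hm2⟩ := hQ g
    refine ⟨m * l, by simp [a1], ?_, ?_⟩
    · simp only [map_mul, map_inv, Aff.mul_n, Aff.mul_y, Aff.inv_n, a1, a2, mul_one, ← hm1]
      rw [mul_neg, Units.mul_inv_cancel_left]
      ring
    · rw [map_mul, map_mul, map_inv, a3, hc, map_mul ev, hm2]⟩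
  have μκ : (μ kap).n = mk (X - 1) := by
    rw [kap, map_commutatorElement, Aff.comm_n, μa, μb]
    simp [xv]
  have hκP : kap ∈ P := by
    refine ⟨1, ?_, by rw [μκ, one_mul], by rw [map_one, h1]⟩
    rw [kap, map_commutatorElement, Aff.comm_y]
  have hP := commutator_le_of_kap P hκP
  have hL : ∀ i : Fin 2, (μ.prod π) (FreeGroup.of i) ^ (n * n * n) = 1 := by
    intro i
    ext1
    · rw [Prod.pow_fst, pow_mul]
      exact Aff.pow_eq_one _ (by rw [Aff.pow_y]; exact (hgen i).1) _ hnS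
    · rw [Prod.pow_snd, mul_comm, pow_mul]
      simp [hpow]
  obtain ⟨⟨c₁, hc₁, e₁⟩, c₂, hc₂, e₂⟩ := hσ.decomp (μ.prod π) (hL 0) (hL 1)
  obtain ⟨l₁, a1, a2, a3⟩ := hP hc₁
  obtain ⟨l₂, b1, b2, b3⟩ := hP hc₂
  have e1 : μ (σ ga) = μ c₁ * μ ga := congrArg Prod.fst e₁
  have e2 : μ (σ gb) = μ c₂ * μ gb := congrArg Prod.fst e₂
  have e3 : π (σ ga) = π c₁ * π ga := congrArg Prod.snd e₁
  have e4 : π (σ gb) = π c₂ * π gb := congrArg Prod.snd e₂
  have key : ((1 - C X) * l₁ + (X - 1) * l₂) * (X - 1) ∈ I := by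
    have := μκ
    rw [← hκ, kap, map_commutatorElement, map_commutatorElement, Aff.comm_n, e1, e2, μa, μb] at this
    simp only [Aff.mul_n, Aff.mul_y, a1, a2, b1, b2, one_mul, Units.val_one, xv, yv, map_mul,
      map_sub, map_one] at this
    rw [← hmk]
    simp only [map_mul, map_add, map_sub, map_one]
    linear_combination this
  obtain ⟨η, k1, k2⟩ := koszul n hn0 hn l₁ l₂ key
  have hJ : Ideal.span {(X ^ n - 1 : R[X][X]), C X ^ n - 1} ≤ RingHom.ker ev := by
    rw [Ideal.span_le]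
    rintro _ (rfl | rfl) <;>
      simp only [SetLike.mem_coe, RingHom.mem_ker, map_sub, map_pow, evX, evY, map_one] <;>
      rw [← map_pow, hpow, map_one, sub_self]
  have r1 : ev l₁ = (cj (π ga) - 1) * ev η := by
    have := hJ k1
    rw [RingHom.mem_ker, map_sub, map_mul, map_sub, evX, map_one] at this
    linear_combination this
  have r2 : ev l₂ = (cj (π gb) - 1) * ev η := by
    have := hJ k2
    rw [RingHom.mem_ker, map_sub, map_mul, map_sub, evY, map_one] at this
    linear_combination this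
  set z := act (Multiplicative.ofAdd (ev η)) with hz
  have fin : ∀ h : H, act (Multiplicative.ofAdd ((cj h - 1) * ev η)) * h = z⁻¹ * h * z⁻¹⁻¹ := by
    intro h
    have : (cj h - 1) * ev η = -ev η + cj h * ev η := by ring
    rw [this, ofAdd_add, ofAdd_neg, map_mul, map_inv, ← hc, ← hz]
    group
  refine ⟨z⁻¹, fun w => ?_⟩
  have : π.comp σ = (MulAut.conj z⁻¹).toMonoidHom.comp π := by
    apply hom_ext
    · change π (σ ga) = z⁻¹ * π ga * z⁻¹⁻¹
      rw [e3, a3, r1, fin]
    · change π (σ gb) = z⁻¹ * π gb * z⁻¹⁻¹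
      rw [e4, b3, r2, fin]
  exact DFunLike.congr_fun this w

open scoped IsMulCommutative in
theorem inner_of_cong {H : Type*} [Group H] (π : F →* H) (n : ℕ) (hn0 : n ≠ 0)
    (hpow : ∀ h : H, h ^ n = 1) (hH : ⁅commutator H, commutator H⁆ = ⊥)
    (σ : F →* F) (hκ : σ kap = kap) (hσ : Cong (n * n * n) σ) :
    ∃ g : H, ∀ z, π (σ z) = g * π z * g⁻¹ := by
  have hM : IsMulCommutative (commutator H) := Subgroup.commutator_self_eq_bot_iff.1 hH
  let E := AddMonoid.End (Additive (commutator H))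
  let c0 : H →* E :=
    { toFun := fun h => MonoidHom.toAdditive (MulAut.conjNormal h : MulAut (commutator H)).toMonoidHom
      map_one' := by rw [map_one]; rfl
      map_mul' := fun g h => by rw [map_mul]; rfl }
  have c0v : ∀ (h : H) (m : Additive (commutator H)),
      ((c0 h m).toMul : H) = h * (m.toMul : H) * h⁻¹ := fun h m => rfl
  have hcomm : ∀ x ∈ Set.range c0, ∀ y ∈ Set.range c0, x * y = y * x := by
    rintro _ ⟨g, rfl⟩ _ ⟨h, rfl⟩
    rw [← map_mul, ← map_mul]
    refine AddMonoidHom.ext fun m => Additive.toMul.injective (Subtype.ext ?_)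
    refine (c0v _ _).trans (Eq.trans ?_ (c0v _ _).symm)
    have hm : ⁅g, h⁆ ∈ commutator H :=
      Subgroup.commutator_mem_commutator (Subgroup.mem_top g) (Subgroup.mem_top h)
    have hm' : h * g * (m.toMul : H) * (h * g)⁻¹ ∈ commutator H :=
      Subgroup.Normal.conj_mem inferInstance _ m.toMul.2 _
    have := congrArg Subtype.val (mul_comm (⟨_, hm⟩ : commutator H) ⟨_, hm'⟩)
    simp only [Subgroup.coe_mul] at this
    calc g * h * (m.toMul : H) * (g * h)⁻¹
        = ⁅g, h⁆ * (h * g * (m.toMul : H) * (h * g)⁻¹) * ⁅g, h⁆⁻¹ := by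
          rw [commutatorElement_def]; group
      _ = _ := by rw [this]; group
  have hR := Subring.isMulCommutative_closure hcomm
  let R := Subring.closure (Set.range c0)
  have hk : π kap ∈ commutator H := by
    rw [kap, map_commutatorElement]
    exact Subgroup.commutator_mem_commutator (Subgroup.mem_top _) (Subgroup.mem_top _)
  let k0 : Additive (commutator H) := Additive.ofMul ⟨_, hk⟩
  let cj : H →* R := c0.codRestrict R fun h => Subring.subset_closure ⟨h, rfl⟩
  let act : Multiplicative R →* H :=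
    { toFun := fun r => (((r.toAdd : E) k0).toMul : H)
      map_one' := rfl
      map_mul' := fun _ _ => rfl }
  refine inner_aux π (R := R) n hn0 ?_ hpow cj act rfl (fun h r => rfl) σ hκ hσ
  apply Subtype.ext
  refine AddMonoidHom.ext fun m => Additive.toMul.injective (Subtype.ext ?_)
  have : ((n : R) : E) m = n • m := by
    rw [SubringClass.coe_natCast]; exact AddMonoid.End.natCast_apply n m
  change ((((n : R) : E) m).toMul : H) = 1
  rw [this]
  simp [hpow]

end Pool.Agent.MP_6c678b_al.Nil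

end

section

/-! Homomorphisms from the free group of rank two to wreath products with the Klein four group,
on which the squares of the two Dehn twists act by conjugation. -/

set_option autoImplicit false

namespace Pool.Agent.MP_6c678b_al.Nil

open scoped commutatorElement
open RegularWreathProduct

/-- The Klein four group. -/
inductive V | o | i | j | k
  deriving DecidableEq, Fintype

namespace V

def mul : V → V → V
  | o, x => x
  | x, o => x
  | i, i => o
  | i, j => k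
  | i, k => j
  | j, i => k
  | j, j => o
  | j, k => i
  | k, i => j
  | k, j => i
  | k, k => o

instance : CommGroup V where
  mul := mul
  one := o
  inv := id
  mul_assoc := by decide
  one_mul := by decide
  mul_one := by decide
  inv_mul_cancel := by decide
  mul_comm := by decide

theorem mul_def (x y : V) : x * y = mul x y := rfl
theorem one_def : (1 : V) = o := rfl
theorem inv_def (x : V) : x⁻¹ = x := rfl

/-- A function on the four group given by its values. -/
def fn {α : Type*} (a b c d : α) : V → α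
  | o => a
  | i => b
  | j => c
  | k => d

end V

def twT : MulAut F :=
  MonoidHom.toMulEquiv (FreeGroup.lift ![ga, gb * ga]) (FreeGroup.lift ![ga, gb * ga⁻¹])
    (hom_ext (by simp [ga]) (by simp [ga, gb])) (hom_ext (by simp [ga]) (by simp [ga, gb]))

def twL : MulAut F :=
  MonoidHom.toMulEquiv (FreeGroup.lift ![ga * gb, gb]) (FreeGroup.lift ![ga * gb⁻¹, gb])
    (hom_ext (by simp [ga, gb]) (by simp [gb])) (hom_ext (by simp [ga, gb]) (by simp [gb]))

theorem twT_a : twT ga = ga := by simp [twT, ga]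
theorem twT_b : twT gb = gb * ga := by simp [twT, gb]
theorem twL_a : twL ga = ga * gb := by simp [twL, ga]
theorem twL_b : twL gb = gb := by simp [twL, gb]

def A : MulAut F := twT * twT
def B : MulAut F := twL * twL

theorem A_a : A ga = ga := by simp [A, twT_a]
theorem A_b : A gb = gb * ga * ga := by simp [A, twT_a, twT_b]
theorem B_a : B ga = ga * gb * gb := by simp [B, twL_a, twL_b]
theorem B_b : B gb = gb := by simp [B, twL_b]
theorem A_kap : A kap = kap := by
  rw [kap, map_commutatorElement, A_a, A_b, commutatorElement_def, commutatorElement_def]; group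
theorem B_kap : B kap = kap := by
  rw [kap, map_commutatorElement, B_a, B_b, commutatorElement_def, commutatorElement_def]; group

variable {U : Type*} [Group U]

def cf (u v w : U) : F →* U ≀ᵣ V :=
  FreeGroup.lift ![⟨V.fn v⁻¹ 1 (w * v) w⁻¹, V.k⟩, ⟨V.fn u⁻¹ v⁻¹ 1 (v * u), V.i⟩]

theorem cf_a (u v w : U) : cf u v w ga = ⟨V.fn v⁻¹ 1 (w * v) w⁻¹, V.k⟩ := by simp [cf, ga]
theorem cf_b (u v w : U) : cf u v w gb = ⟨V.fn u⁻¹ v⁻¹ 1 (v * u), V.i⟩ := by simp [cf, gb]

theorem cf_kap (u v w : U) :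
    cf u v w kap = ⟨V.fn (u ^ 2) (v ^ 2) (w ^ 2) ((w⁻¹ * u⁻¹ * v⁻¹) ^ 2), 1⟩ := by
  rw [kap, map_commutatorElement, cf_a, cf_b, commutatorElement_def]
  ext q
  · cases q <;> simp [V.fn, V.mul_def, V.mul, V.inv_def, sq, mul_assoc]
  · rfl

/-- The base group. -/
def bs : (V → U) →* U ≀ᵣ V where
  toFun h := ⟨h, 1⟩
  map_one' := rfl
  map_mul' g h := by ext q <;> simp

theorem cf_A (u v w : U) (z : F) :
    cf u v w (A z) = bs (V.fn (w * v) 1 1 (v * w)) * cf ((w * v)⁻¹ * u * (w * v)) v w z *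
      (bs (V.fn (w * v) 1 1 (v * w)))⁻¹ := by
  have : (cf u v w).comp A.toMonoidHom =
      (MulAut.conj (bs (V.fn (w * v) 1 1 (v * w)))).toMonoidHom.comp
        (cf ((w * v)⁻¹ * u * (w * v)) v w) := by
    apply hom_ext
    · change cf u v w (A ga) = _ * cf _ v w ga * _
      rw [A_a, cf_a, cf_a]
      ext q
      · cases q <;> simp [bs, V.fn, V.mul_def, V.mul, V.inv_def, V.one_def, mul_assoc]
      · rfl
    · change cf u v w (A gb) = _ * cf _ v w gb * _
      rw [A_b, map_mul, map_mul, cf_a, cf_b, cf_b]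
      ext q
      · cases q <;> simp [bs, V.fn, V.mul_def, V.mul, V.inv_def, V.one_def, mul_assoc]
      · rfl
  exact DFunLike.congr_fun this z

theorem cf_B (u v w : U) (z : F) :
    cf u v w (B z) = bs (V.fn (v * u) (v * u) 1 1) *
      cf ((v * u)⁻¹ * u * (v * u)) (u⁻¹ * v * u) w z * (bs (V.fn (v * u) (v * u) 1 1))⁻¹ := by
  have : (cf u v w).comp B.toMonoidHom =
      (MulAut.conj (bs (V.fn (v * u) (v * u) 1 1))).toMonoidHom.comp
        (cf ((v * u)⁻¹ * u * (v * u)) (u⁻¹ * v * u) w) := by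
    apply hom_ext
    · change cf u v w (B ga) = _ * cf _ _ w ga * _
      rw [B_a, map_mul, map_mul, cf_a, cf_b, cf_a]
      ext q
      · cases q <;> simp [bs, V.fn, V.mul_def, V.mul, V.inv_def, V.one_def, mul_assoc]
      · rfl
    · change cf u v w (B gb) = _ * cf _ _ w gb * _
      rw [B_b, cf_b, cf_b]
      ext q
      · cases q <;> simp [bs, V.fn, V.mul_def, V.mul, V.inv_def, V.one_def, mul_assoc]
      · rfl
  exact DFunLike.congr_fun this z

/-- Elements of the wreath product with all coordinates in `P`. -/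
def wr (P : Subgroup U) : Subgroup (U ≀ᵣ V) where
  carrier := {g | ∀ q, g.left q ∈ P}
  one_mem' := fun q => by simp
  mul_mem' := fun {g h} hg hh q => by simpa using P.mul_mem (hg q) (hh _)
  inv_mem' := fun {g} hg q => by simpa using hg _

/-- Elements of the base group with all coordinates in `P`. -/
def base (P : Subgroup U) : Subgroup (U ≀ᵣ V) := wr P ⊓ (rightHom : U ≀ᵣ V →* V).ker

theorem base_comm {P Q R : Subgroup U} (h : ⁅P, Q⁆ ≤ R) : ⁅base P, base Q⁆ ≤ base R := by
  rw [Subgroup.commutator_le] at h ⊢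
  rintro g ⟨g1, g2⟩ k ⟨k1, k2⟩
  have g3 : g.right = 1 := g2
  have k3 : k.right = 1 := k2
  refine ⟨fun q => ?_, ?_⟩
  · simpa [commutatorElement_def, g3, k3] using h _ (g1 q) _ (k1 q)
  · change (⁅g, k⁆).right = 1
    simp [commutatorElement_def, g3, k3]

theorem base_bot : base (⊥ : Subgroup U) = ⊥ := by
  rw [eq_bot_iff]
  rintro g ⟨g1, g2⟩
  rw [Subgroup.mem_bot]
  ext q
  · exact g1 q
  · exact g2

theorem cf_comm (u v w : U) (P : Subgroup U) (hu : u ∈ P) (hv : v ∈ P) (hw : w ∈ P) :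
    commutator F ≤ (base P).comap (cf u v w) := by
  have h1 : ∀ z, cf u v w z ∈ wr P := by
    intro z
    induction z using FreeGroup.induction_on with
    | C1 => simp
    | of i =>
      fin_cases i
      · change cf u v w ga ∈ _
        rw [cf_a]
        intro q
        cases q
        exacts [P.inv_mem hv, P.one_mem, P.mul_mem hw hv, P.inv_mem hw]
      · change cf u v w gb ∈ _
        rw [cf_b]
        intro q
        cases q
        exacts [P.inv_mem hu, P.inv_mem hv, P.one_mem, P.mul_mem hv hu]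
    | inv_of i ih => rw [map_inv]; exact inv_mem ih
    | mul x y hx hy => rw [map_mul]; exact mul_mem hx hy
  intro z hz
  exact ⟨h1 z, Abelianization.commutator_subset_ker (rightHom.comp (cf u v w)) hz⟩

theorem cf_lcs (u v w : U) (P : ℕ → Subgroup U) (hu : u ∈ P 0) (hv : v ∈ P 0) (hw : w ∈ P 0)
    (hP : ∀ i, ⁅P i, P 0⁆ ≤ P (i + 1)) (i : ℕ) : D F i ≤ (base (P i)).comap (cf u v w) := by
  induction i with
  | zero => exact cf_comm u v w _ hu hv hw
  | succ i ih =>
    rw [D_succ, ← Subgroup.map_le_iff_le_comap, Subgroup.map_commutator]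
    exact (Subgroup.commutator_mono (Subgroup.map_le_iff_le_comap.2 ih)
      (Subgroup.map_le_iff_le_comap.2 (cf_comm u v w _ hu hv hw))).trans (base_comm (hP i))

theorem cf_der (u v w : U) (P : ℕ → Subgroup U) (hu : u ∈ P 0) (hv : v ∈ P 0) (hw : w ∈ P 0)
    (hP : ∀ i, ⁅P i, P i⁆ ≤ P (i + 1)) (i : ℕ) :
    derivedSeries F (i + 1) ≤ (base (P i)).comap (cf u v w) := by
  induction i with
  | zero => exact cf_comm u v w _ hu hv hw
  | succ i ih =>
    rw [derivedSeries_succ, ← Subgroup.map_le_iff_le_comap, Subgroup.map_commutator]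
    exact (Subgroup.commutator_mono (Subgroup.map_le_iff_le_comap.2 ih)
      (Subgroup.map_le_iff_le_comap.2 ih)).trans (base_comm (hP i))

section lower

variable {S : Type*} [CommRing S]

/-- The homomorphism attached to the triple `(r, 1), (s, η), (0, η)` of affine maps. -/
def ca (η : Sˣ) (r s : S) : F →* Aff S ≀ᵣ V := cf ⟨1, r⟩ ⟨η, s⟩ ⟨η, 0⟩

/-- Automorphisms fixing the commutator that move the triples by an affine map. -/
def St (η : Sˣ) : Subgroup (MulAut F × Aff S) where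
  carrier := {p | p.1 kap = kap ∧ ∀ r s, ∃ h, ∀ z, ca η r s (p.1 z) =
    bs h * ca η (p.2.y * r) (p.2.n * r + s) z * (bs h)⁻¹}
  one_mem' := ⟨rfl, fun r s => ⟨1, fun z => by simp⟩⟩
  mul_mem' := by
    rintro p q ⟨p1, p2⟩ ⟨q1, q2⟩
    refine ⟨by simp [p1, q1], fun r s => ?_⟩
    obtain ⟨h, hh⟩ := p2 r s
    obtain ⟨k, hk⟩ := q2 (p.2.y * r) (p.2.n * r + s)
    refine ⟨h * k, fun z => ?_⟩
    have e1 : ((p * q).2.y : S) * r = q.2.y * (p.2.y * r) := by simp; ring
    have e2 : (p * q).2.n * r + s = q.2.n * (p.2.y * r) + (p.2.n * r + s) := by simp; ring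
    rw [e1, e2, Prod.fst_mul, MulAut.mul_apply, hh, hk, map_mul]
    group
  inv_mem' := by
    rintro p ⟨p1, p2⟩
    refine ⟨by rw [Prod.fst_inv, MulAut.inv_apply, MulEquiv.symm_apply_eq, p1], fun r s => ?_⟩
    obtain ⟨h, hh⟩ := p2 (p⁻¹.2.y * r) (p⁻¹.2.n * r + s)
    refine ⟨h⁻¹, fun z => ?_⟩
    have e1 : (p.2.y : S) * (p⁻¹.2.y * r) = r := by simp
    have e2 : p.2.n * (p⁻¹.2.y * r) + (p⁻¹.2.n * r + s) = s := by simp; ring
    have := hh (p.1⁻¹ z)
    rw [MulAut.apply_inv_self, e1, e2] at this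
    rw [this, map_inv, Prod.fst_inv]
    group

def oA (η : Sˣ) : Aff S := ⟨(η * η)⁻¹, 0⟩
def oB (η : Sˣ) : Aff S := ⟨η⁻¹, η - 1⟩

theorem A_mem (η : Sˣ) : (A, oA η) ∈ St η := by
  refine ⟨A_kap, fun r s => ?_⟩
  have e1 : ((⟨η, 0⟩ : Aff S) * ⟨η, s⟩)⁻¹ * ⟨1, r⟩ * (⟨η, 0⟩ * ⟨η, s⟩) =
      ⟨1, (oA η).y * r⟩ := by
    ext
    · simp
    · simp [oA]
      linear_combination (↑η⁻¹ * s) * η.inv_mul
  have e2 : (oA η).n * r + s = s := by simp [oA]
  have := cf_A (⟨1, r⟩ : Aff S) ⟨η, s⟩ ⟨η, 0⟩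
  rw [e1] at this
  rw [e2]
  exact ⟨_, this⟩

theorem B_mem (η : Sˣ) : (B, oB η) ∈ St η := by
  refine ⟨B_kap, fun r s => ?_⟩
  have e1 : ((⟨η, s⟩ : Aff S) * ⟨1, r⟩)⁻¹ * ⟨1, r⟩ * (⟨η, s⟩ * ⟨1, r⟩) =
      ⟨1, (oB η).y * r⟩ := by
    ext
    · simp
    · simp [oB]
      linear_combination r * η.inv_mul
  have e2 : (⟨1, r⟩ : Aff S)⁻¹ * ⟨η, s⟩ * ⟨1, r⟩ = ⟨η, (oB η).n * r + s⟩ := by
    ext
    · simp
    · simp [oB]; ring
  have := cf_B (⟨1, r⟩ : Aff S) ⟨η, s⟩ ⟨η, 0⟩
  rw [e1, e2] at this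
  exact ⟨_, this⟩

theorem lower_bound (η : Sˣ) (h2 : IsUnit (2 : S)) (hη : η ^ 4 ≠ 1) (p : MulAut F × Aff S)
    (hp : p ∈ St η) (g : F) (hg : ∀ z, ca η 1 0 (p.1 z) = ca η 1 0 (g * z * g⁻¹)) :
    p.2.n = 0 := by
  obtain ⟨p1, p2⟩ := hp
  obtain ⟨h, hh⟩ := p2 1 0
  have k0 := hg kap
  rw [p1, map_mul, map_mul, map_inv, eq_mul_inv_iff_mul_eq, ca, cf_kap] at k0
  have k : ∀ z, ca η (p.2.y * 1) (p.2.n * 1 + 0) z * ((bs h)⁻¹ * ca η 1 0 g) =
      ((bs h)⁻¹ * ca η 1 0 g) * ca η 1 0 z := by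
    intro z
    have := (hh z).symm.trans (hg z)
    rw [map_mul, map_mul, map_inv] at this
    calc _ = (bs h)⁻¹ * (bs h * ca η (p.2.y * 1) (p.2.n * 1 + 0) z * (bs h)⁻¹) * ca η 1 0 g := by
          group
      _ = _ := by rw [this]; group
  have hq : ((bs h)⁻¹ * ca η 1 0 g).right = 1 := by
    rw [← ca] at k0
    have e : ((bs h)⁻¹ * ca η 1 0 g).right = (ca η 1 0 g).right := by simp [bs]
    rw [e]
    generalize ca η 1 0 g = β at k0
    obtain ⟨β, q⟩ := β
    have k2 := congrArg Aff.y (congrFun (congrArg RegularWreathProduct.left k0) V.o)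
    have e4 : η ^ 4 = η * η * (η * η) := by simp [pow_succ, mul_assoc]
    cases q with
    | o => rfl
    | i =>
      simp [V.fn, V.mul_def, V.mul, V.inv_def, V.one_def, sq] at k2
      exact absurd (by rw [e4, k2, one_mul]) hη
    | j =>
      simp [V.fn, V.mul_def, V.mul, V.inv_def, V.one_def, sq] at k2
      exact absurd (by rw [e4, k2, one_mul]) hη
    | k =>
      simp [V.fn, V.mul_def, V.mul, V.inv_def, V.one_def, sq] at k2
      rw [← mul_inv, ← mul_inv, inv_eq_one] at k2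
      exact absurd (e4.trans k2) hη
  generalize (bs h)⁻¹ * ca η 1 0 g = β at k hq
  obtain ⟨β, q⟩ := β
  obtain rfl : q = 1 := hq
  have a1 := congrArg Aff.n (congrFun (congrArg RegularWreathProduct.left (k kap)) V.o)
  have a2 := congrArg Aff.n (congrFun (congrArg RegularWreathProduct.left (k (ga * ga)⁻¹)) V.o)
  have a3 := congrArg Aff.n (congrFun (congrArg RegularWreathProduct.left (k (gb * gb)⁻¹)) V.o)
  simp only [ca, cf_kap, map_mul, map_inv, cf_a, cf_b] at a1 a2 a3
  simp [V.fn, V.mul_def, V.mul, V.inv_def, V.one_def, sq] at a1 a2 a3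
  have h0 : (p.2.y : S) - (β V.o).y = 0 :=
    h2.mul_right_eq_zero.1 (by linear_combination a1)
  linear_combination (η + 1 : S) * a3 - a2 - (η + 1 : S) * η * h0

end lower

end Pool.Agent.MP_6c678b_al.Nil

end

section

/-! Words in the squares of the two Dehn twists that are congruent to the identity on the
abelianization, and the upper bound: their iterated commutators are inner. -/

set_option autoImplicit false

namespace Pool.Agent.MP_6c678b_al.Nil

open scoped commutatorElement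

def hw {G : Type*} [Group G] (θ : ℕ) (a b : G) : G :=
  a ^ (24 * θ) * (b ^ (24 * θ))⁻¹ * a ^ (8 * θ) * (b ^ (72 * θ))⁻¹

def wd {G : Type*} [Group G] (θ : ℕ) (a b : G) : G :=
  a ^ (24 * θ) * ⁅hw θ a b, a ^ (3 * θ)⁆⁻¹

theorem map_hw {G H : Type*} [Group G] [Group H] (f : G →* H) (θ : ℕ) (a b : G) :
    f (hw θ a b) = hw θ (f a) (f b) := by simp [hw]

theorem map_wd {G H : Type*} [Group G] [Group H] (f : G →* H) (θ : ℕ) (a b : G) :
    f (wd θ a b) = wd θ (f a) (f b) := by simp [wd, map_hw, map_commutatorElement]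

theorem wd_mem {G : Type*} [Group G] (S : Subgroup G) (θ : ℕ) {a b : G} (ha : a ∈ S)
    (hb : b ∈ S) : wd θ a b ∈ S := by
  have := map_wd S.subtype θ ⟨a, ha⟩ ⟨b, hb⟩
  simp only [Subgroup.coe_subtype] at this
  rw [← this]
  exact Subtype.property _

theorem wd_eq_one {G : Type*} [Group G] (θ : ℕ) (a b : G)
    (h : a ^ (24 * θ) * a ^ (3 * θ) * hw θ a b = hw θ a b * a ^ (3 * θ)) : wd θ a b = 1 := by
  calc wd θ a b = (a ^ (24 * θ) * a ^ (3 * θ) * hw θ a b) * (hw θ a b * a ^ (3 * θ))⁻¹ := by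
        rw [wd, commutatorElement_def]; group
    _ = 1 := by rw [h, mul_inv_cancel]

theorem e_hom (σ : F →* F) (i : Fin 2) (z : F) :
    e i (σ z) = e i (σ ga) * e 0 z + e i (σ gb) * e 1 z := by
  have := congrArg Multiplicative.toAdd (comm_formula ((ex i).comp σ) z)
  simp only [MonoidHom.comp_apply, toAdd_mul, toAdd_zpow, smul_eq_mul] at this
  rw [mul_comm _ (e 0 z), mul_comm _ (e 1 z)]
  exact this

/-- The action on the abelianization modulo `L`. -/
def matL (L : ℕ) : MulAut F →* Matrix (Fin 2) (Fin 2) (ZMod L) where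
  toFun σ := Matrix.of fun i j => (e i (σ (FreeGroup.of j)) : ZMod L)
  map_one' := by
    ext i j
    simp [e_of, Matrix.one_apply]
  map_mul' σ τ := by
    ext i j
    have := e_hom σ.toMonoidHom i (τ (FreeGroup.of j))
    simp only [MulEquiv.toMonoidHom_eq_coe, MonoidHom.coe_coe] at this
    simp [Matrix.mul_apply, Fin.sum_univ_two, this, ga, gb]

theorem cong_of_matL (L : ℕ) (σ : MulAut F) (h : (matL L).toHomUnits σ = 1) :
    Cong L σ.toMonoidHom := by
  intro i j
  have h' : matL L σ = 1 := congrArg Units.val h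
  have := congrFun (congrFun h' i) j
  rw [← ZMod.intCast_eq_intCast_iff_dvd_sub]
  simpa [matL, Matrix.one_apply] using this.symm

section mats

variable {R : Type*} [CommRing R]

def up (r : R) : Matrix (Fin 2) (Fin 2) R := !![1, r; 0, 1]
def lo (r : R) : Matrix (Fin 2) (Fin 2) R := !![1, 0; r, 1]

omit [CommRing R] in
theorem mat_eq {a b c d a' b' c' d' : R} (h1 : a = a') (h2 : b = b') (h3 : c = c') (h4 : d = d') :
    !![a, b; c, d] = !![a', b'; c', d'] := by rw [h1, h2, h3, h4]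

theorem val_pow (f : R → Matrix (Fin 2) (Fin 2) R) (h0 : f 0 = 1)
    (hf : ∀ r s, f r * f s = f (r + s)) (a : (Matrix (Fin 2) (Fin 2) R)ˣ) (ha : a.val = f 2)
    (k : ℕ) : (a ^ k).val = f (2 * k) ∧ (a ^ k)⁻¹.val = f (-(2 * k)) := by
  have h1 : (a ^ k).val = f (2 * k) := by
    induction k with
    | zero => simp [h0]
    | succ k ih => rw [pow_succ, Units.val_mul, ih, ha, hf]; congr 1; push_cast; ring
  exact ⟨h1, Units.inv_eq_of_mul_eq_one_right (by rw [h1, hf, add_neg_cancel, h0])⟩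

theorem wd_units (θ : ℕ) (hθ : (θ : R) * (24 * θ - 1) = 0) (a b : (Matrix (Fin 2) (Fin 2) R)ˣ)
    (ha : a.val = up 2) (hb : b.val = lo 2) : wd θ a b = 1 ∧ wd θ b a = 1 := by
  have pa := val_pow up Matrix.one_fin_two.symm
    (fun r s => by simp only [up, Matrix.mul_fin_two]; apply mat_eq <;> ring) a ha
  have pb := val_pow lo Matrix.one_fin_two.symm
    (fun r s => by simp only [lo, Matrix.mul_fin_two]; apply mat_eq <;> ring) b hb
  constructor
  · apply wd_eq_one
    apply Units.ext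
    simp only [hw, Units.val_mul, (pa _).1, (pb _).2, up, lo, Matrix.mul_fin_two]
    push_cast
    apply mat_eq
    · linear_combination (10368 * (θ : R) + 248832 * θ ^ 2) * hθ
    · linear_combination (-48 - 1152 * (θ : R) - 55296 * θ ^ 2 - 1327104 * θ ^ 3) * hθ
    · ring
    · linear_combination (-1152 * (θ : R) - 27648 * θ ^ 2) * hθ
  · apply wd_eq_one
    apply Units.ext
    simp only [hw, Units.val_mul, (pb _).1, (pa _).2, up, lo, Matrix.mul_fin_two]
    push_cast
    apply mat_eq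
    · linear_combination (-1152 * (θ : R) - 27648 * θ ^ 2) * hθ
    · ring
    · linear_combination (-48 - 1152 * (θ : R) - 55296 * θ ^ 2 - 1327104 * θ ^ 3) * hθ
    · linear_combination (10368 * (θ : R) + 248832 * θ ^ 2) * hθ

end mats

theorem matL_A (L : ℕ) : matL L A = up 2 := by
  ext i j
  fin_cases j
  · change (e i (A ga) : ZMod L) = _
    rw [A_a]
    fin_cases i <;> simp [ga, e_of, up]
  · change (e i (A gb) : ZMod L) = _
    rw [A_b]
    fin_cases i <;> simp [ga, gb, e_of, e_mul, up]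

theorem matL_B (L : ℕ) : matL L B = lo 2 := by
  ext i j
  fin_cases j
  · change (e i (B ga) : ZMod L) = _
    rw [B_a]
    fin_cases i <;> simp [ga, gb, e_of, e_mul, lo]
  · change (e i (B gb) : ZMod L) = _
    rw [B_b]
    fin_cases i <;> simp [gb, e_of, lo]

theorem exists_theta (L : ℕ) (hL : L ≠ 0) :
    ∃ θ : ℕ, (5 : ℤ) ∣ 24 * θ - 1 ∧ (matL L).toHomUnits (wd θ A B) = 1 ∧
      (matL L).toHomUnits (wd θ B A) = 1 := by
  obtain ⟨k, M, hM, rfl⟩ := Nat.exists_eq_pow_mul_and_not_dvd hL 5 (by norm_num)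
  have hc : Nat.Coprime (24 * M) (5 ^ (k + 1)) :=
    Nat.Coprime.pow_right _ (Nat.Coprime.mul_left (by norm_num)
      ((Nat.Prime.coprime_iff_not_dvd Nat.prime_five).2 hM).symm)
  have h1 := Nat.ModEq.pow_totient hc
  obtain ⟨t, ht⟩ := Nat.exists_eq_succ_of_ne_zero
    (Nat.totient_pos.2 (pow_pos (by norm_num : 0 < 5) (k + 1))).ne'
  rw [ht] at h1
  obtain ⟨s, hs⟩ := h1.symm.dvd
  have hs' : (24 : ℤ) * (M * (24 * M) ^ t : ℕ) - 1 = 5 ^ (k + 1) * s := by
    push_cast at hs ⊢
    rw [← hs, pow_succ]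
    ring
  refine ⟨M * (24 * M) ^ t, ⟨5 ^ k * s, by rw [hs']; ring⟩, ?_⟩
  rw [map_wd, map_wd]
  apply wd_units _ _ _ _ (matL_A _) (matL_B _)
  have : ((((M * (24 * M) ^ t : ℕ) : ℤ) * (24 * (M * (24 * M) ^ t : ℕ) - 1) : ℤ) :
      ZMod (5 ^ k * M)) = 0 := by
    rw [ZMod.intCast_zmod_eq_zero_iff_dvd, hs']
    exact ⟨(24 * M) ^ t * 5 * s, by push_cast; ring⟩
  simpa only [Int.cast_mul, Int.cast_sub, Int.cast_natCast, Int.cast_ofNat, Int.cast_one] using this

/-- The automorphism induced on the quotient by a characteristic subgroup. -/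
def ind {G : Type*} [Group G] (K : Subgroup G) [hK : K.Characteristic] :
    MulAut G →* MulAut (G ⧸ K) where
  toFun σ := QuotientGroup.congr K K σ (Subgroup.characteristic_iff_map_eq.1 hK σ)
  map_one' := MulEquiv.ext fun x => QuotientGroup.induction_on x fun _ => rfl
  map_mul' _ _ := MulEquiv.ext fun x => QuotientGroup.induction_on x fun _ => rfl

theorem ind_mk {G : Type*} [Group G] (K : Subgroup G) [K.Characteristic] (σ : MulAut G) (x : G) :
    ind K σ (QuotientGroup.mk' K x) = QuotientGroup.mk' K (σ x) := rfl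

theorem map_D {G H : Type*} [Group G] [Group H] (f : G →* H) (hf : Function.Surjective f)
    (i : ℕ) : (D G i).map f = D H i := by
  rw [Subgroup.map_lowerCentralSeries, map_commutator_eq, MonoidHom.range_eq_top.2 hf]
  rfl

theorem upper_bound (c : ℕ) (K : Subgroup (F ⧸ D F (c + 1))) (hK : K.Characteristic)
    (hK' : K.FiniteIndex) : ∃ L : ℕ, L ≠ 0 ∧ ∀ φ ψ : MulAut F, φ kap = kap → ψ kap = kap →
      (matL L).toHomUnits φ = 1 → (matL L).toHomUnits ψ = 1 → ∃ g : F, ∀ x : F,
        (QuotientGroup.mk (iter φ ψ c x * (g * x * g⁻¹)⁻¹) : F ⧸ D F (c + 1)) ∈ K := by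
  let K₀ : Subgroup F := K.comap (QuotientGroup.mk' _)
  have : K₀.Characteristic := Subgroup.Characteristic.comap_quotient_mk hK
  have : K₀.FiniteIndex :=
    ⟨by rw [Subgroup.index_comap_of_surjective _ (QuotientGroup.mk'_surjective _)]; exact hK'.1⟩
  let G := F ⧸ K₀
  let p : F →* G := QuotientGroup.mk' K₀
  have hp : Function.Surjective p := QuotientGroup.mk'_surjective _
  let H := G ⧸ D G 1
  let q : G →* H := QuotientGroup.mk' _
  have hq : Function.Surjective q := QuotientGroup.mk'_surjective _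
  have hH : ⁅commutator H, commutator H⁆ = ⊥ := by
    change D H 1 = ⊥
    rw [← map_D q hq, Subgroup.map_eq_bot_iff, QuotientGroup.ker_mk']
  have hG : D G (c + 1) = ⊥ := by
    rw [← map_D p hp, Subgroup.map_eq_bot_iff, QuotientGroup.ker_mk']
    intro x hx
    change QuotientGroup.mk' _ x ∈ K
    rw [QuotientGroup.mk'_apply, (QuotientGroup.eq_one_iff x).2 hx]
    exact K.one_mem
  have hn : Nat.card H ≠ 0 := Nat.card_pos.ne'
  have key : ∀ φ : MulAut F, φ kap = kap →
      (matL (Nat.card H * Nat.card H * Nat.card H)).toHomUnits φ = 1 →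
      ∃ g, ∀ x, ind K₀ φ x * (g * x * g⁻¹)⁻¹ ∈ D G 1 := by
    intro φ h1 h2
    obtain ⟨g, hg⟩ := inner_of_cong (q.comp p) _ hn (fun h => pow_card_eq_one') hH φ.toMonoidHom h1
      (cong_of_matL _ φ h2)
    obtain ⟨g, rfl⟩ := hq g
    refine ⟨g, fun x => ?_⟩
    obtain ⟨x, rfl⟩ := hp x
    rw [mem_iff_mk, map_mul, map_mul, map_inv]
    exact hg x
  refine ⟨_, mul_ne_zero (mul_ne_zero hn hn) hn, fun φ ψ a1 a2 a3 a4 => ?_⟩
  obtain ⟨g, hg⟩ := iter_inner c hG _ _ (key φ a1 a3) (key ψ a2 a4)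
  obtain ⟨g, rfl⟩ := hp g
  refine ⟨g, fun x => ?_⟩
  change _ ∈ K₀
  rw [mem_iff_mk, ← ind_mk, map_iter, map_mul, map_mul, map_inv]
  exact hg _

theorem exists_char (N : Subgroup F) [N.Normal] (B : Type*) [Group B] [Finite B] :
    ∃ K : Subgroup (F ⧸ N), K.Characteristic ∧ K.FiniteIndex ∧
      ∀ f : F →* B, N ≤ f.ker → ∀ z : F, (QuotientGroup.mk z : F ⧸ N) ∈ K → f z = 1 := by
  have : Finite (F ⧸ N →* B) := by
    refine Finite.of_injective (fun f : F ⧸ N →* B => (f (QuotientGroup.mk ga),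
      f (QuotientGroup.mk gb))) fun f g h => ?_
    simp only [Prod.mk.injEq] at h
    exact QuotientGroup.monoidHom_ext _ (hom_ext h.1 h.2)
  refine ⟨⨅ f : F ⧸ N →* B, f.ker, ?_, Subgroup.finiteIndex_iInf fun f => inferInstance, ?_⟩
  · rw [Subgroup.characteristic_iff_le_comap]
    intro φ x hx
    rw [Subgroup.mem_comap, Subgroup.mem_iInf]
    intro f
    exact Subgroup.mem_iInf.1 hx (f.comp φ.toMonoidHom)
  · intro f hf z hz
    exact Subgroup.mem_iInf.1 hz (QuotientGroup.lift N f hf)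

end Pool.Agent.MP_6c678b_al.Nil

end
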