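import Pool.Agent.Mg.F6c678b.G03d867

/-! The lower bounds: iterated commutators of the congruence words that are not inner. -/

set_option autoImplicit false

namespace Pool.Agent.MP_6c678b_al.Nil

open scoped commutatorElement

variable {S : Type*} [CommRing S]

theorem sep [Finite S] (η : Sˣ) (h2 : IsUnit (2 : S)) (hη : η ^ 4 ≠ 1) (N : Subgroup F)
    [N.Normal] (hN : N ≤ (ca η 1 0).ker) :
    ∃ K : Subgroup (F ⧸ N), K.Characteristic ∧ K.FiniteIndex ∧ ∀ p ∈ St η, p.2.n ≠ 0 →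
      ¬ ∃ g : F, ∀ x : F, (QuotientGroup.mk (p.1 x * (g * x * g⁻¹)⁻¹) : F ⧸ N) ∈ K := by
  obtain ⟨K, h1, h3, h4⟩ := exists_char N (RegularWreathProduct (Aff S) V)
  refine ⟨K, h1, h3, fun p hp hn ⟨g, hg⟩ => hn (lower_bound η h2 hη p hp g fun z => ?_)⟩
  have := h4 _ hN _ (hg z)
  rwa [map_mul, map_inv, mul_inv_eq_one] at this

theorem der_ker (η : Sˣ) : derivedSeries F 3 ≤ (ca η (1 : S) 0).ker := by
  have h1 : derivedSeries (Aff S) 1 ≤ Aff.yHom.ker := by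
    rw [derivedSeries_succ, Subgroup.commutator_le]
    exact fun g _ h _ => Aff.comm_y g h
  have h2 : derivedSeries (Aff S) 2 = ⊥ := by
    rw [eq_bot_iff, derivedSeries_succ, Subgroup.commutator_le]
    intro g hg h hh
    have a : g.y = 1 := h1 hg
    have b : h.y = 1 := h1 hh
    rw [Subgroup.mem_bot]
    ext
    · rw [Aff.comm_y]; rfl
    · rw [Aff.comm_n, a, b]; simp
  have := cf_der (⟨1, 1⟩ : Aff S) ⟨η, 0⟩ ⟨η, 0⟩ (derivedSeries (Aff S)) (Subgroup.mem_top _)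
    (Subgroup.mem_top _) (Subgroup.mem_top _) (fun i => le_rfl) 2
  rw [h2, base_bot] at this
  exact this

def filt (t : S) (i : ℕ) : Subgroup (Aff S) where
  carrier := {g | t ^ i ∣ g.n ∧ t ^ (i + 1) ∣ g.y - 1}
  one_mem' := by simp
  mul_mem' := by
    rintro g h ⟨⟨a, ha⟩, b, hb⟩ ⟨⟨c, hc⟩, d, hd⟩
    refine ⟨⟨g.y * c + a, ?_⟩, b * h.y + d, ?_⟩
    · rw [Aff.mul_n, ha, hc]; ring
    · rw [Aff.mul_y, Units.val_mul]; linear_combination (h.y : S) * hb + hd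
  inv_mem' := by
    rintro g ⟨⟨a, ha⟩, b, hb⟩
    refine ⟨⟨-(↑g.y⁻¹ * a), ?_⟩, -(↑g.y⁻¹ * b), ?_⟩
    · rw [Aff.inv_n, ha]; ring
    · rw [Aff.inv_y]; linear_combination g.y.inv_mul - (↑g.y⁻¹ : S) * hb

theorem lcs_ker (t : S) (η : Sˣ) (hη : (η : S) = 1 + t) (c : ℕ) (hc : t ^ c = 0) :
    D F c ≤ (ca η (1 : S) 0).ker := by
  have hP : ∀ i, ⁅filt t i, filt t 0⁆ ≤ filt t (i + 1) := by
    intro i
    rw [Subgroup.commutator_le]
    rintro g ⟨⟨a, ha⟩, b, hb⟩ h ⟨-, d, hd⟩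
    refine ⟨⟨-(d * a) + b * h.n, ?_⟩, by rw [Aff.comm_y]; simp⟩
    rw [Aff.comm_n, ha, hb]
    linear_combination (-(t ^ i * a)) * hd
  have h0 : filt t c = ⊥ := by
    rw [eq_bot_iff]
    rintro g ⟨h1, h2⟩
    rw [pow_succ, hc, zero_mul, zero_dvd_iff, sub_eq_zero] at h2
    rw [hc, zero_dvd_iff] at h1
    rw [Subgroup.mem_bot]
    ext
    · exact h2
    · exact h1
  have hv : (⟨η, 0⟩ : Aff S) ∈ filt t 0 := ⟨by simp, by simp [hη]⟩
  have := cf_lcs (⟨1, 1⟩ : Aff S) ⟨η, 0⟩ ⟨η, 0⟩ (filt t) ⟨by simp, by simp⟩ hv hv hP c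
  rw [h0, base_bot] at this
  exact this

def lead (t : S) : Subgroup (Aff S × Multiplicative (S × S)) where
  carrier := {p | t ^ 2 ∣ p.1.y - (1 + p.2.toAdd.1 * t) ∧ t ^ 2 ∣ p.1.n - p.2.toAdd.2 * t}
  one_mem' := by simp
  mul_mem' := by
    rintro ⟨g, x⟩ ⟨h, y⟩ ⟨⟨a, ha⟩, b, hb⟩ ⟨⟨c, hc⟩, d, hd⟩
    refine ⟨⟨a * h.y + (1 + x.toAdd.1 * t) * c + x.toAdd.1 * y.toAdd.1, ?_⟩,
      g.y * d + (x.toAdd.1 + a * t) * y.toAdd.2 + b, ?_⟩
    · simp only [Prod.mk_mul_mk, Aff.mul_y, Units.val_mul, toAdd_mul, Prod.fst_add] at ha hc ⊢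
      linear_combination (h.y : S) * ha + (1 + x.toAdd.1 * t) * hc
    · simp only [Prod.mk_mul_mk, Aff.mul_n, toAdd_mul, Prod.snd_add] at ha hb hd ⊢
      linear_combination (g.y : S) * hd + y.toAdd.2 * t * ha + hb
  inv_mem' := by
    rintro ⟨g, x⟩ ⟨⟨a, ha⟩, b, hb⟩
    have hi := g.y.inv_mul
    refine ⟨⟨↑g.y⁻¹ * (x.toAdd.1 ^ 2 - a + a * x.toAdd.1 * t), ?_⟩,
      ↑g.y⁻¹ * (-b + x.toAdd.2 * (x.toAdd.1 + a * t)), ?_⟩
    · simp only [Prod.inv_mk, Aff.inv_y, toAdd_inv, Prod.fst_neg] at ha ⊢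
      linear_combination (1 - x.toAdd.1 * t) * hi - (1 - x.toAdd.1 * t) * ↑g.y⁻¹ * ha
    · simp only [Prod.inv_mk, Aff.inv_n, toAdd_inv, Prod.snd_neg] at ha hb ⊢
      linear_combination -(x.toAdd.2 * t) * hi - ↑g.y⁻¹ * hb + x.toAdd.2 * t * ↑g.y⁻¹ * ha

theorem wd_comm {G : Type*} [CommGroup G] (θ : ℕ) (a b : G) : wd θ a b = a ^ (24 * θ) := by
  rw [wd, commutatorElement_eq_one_iff_mul_comm.2 (mul_comm _ _), inv_one, mul_one]

theorem lead_wd (t : S) (θ : ℕ) (hθ : t ∣ 24 * θ - 1) (g h : Aff S) (x y : S × S)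
    (hg : (g, Multiplicative.ofAdd x) ∈ lead t) (hh : (h, Multiplicative.ofAdd y) ∈ lead t) :
    t ^ 2 ∣ (wd θ g h).y - (1 + x.1 * t) ∧ t ^ 2 ∣ (wd θ g h).n - x.2 * t := by
  obtain ⟨⟨a, ha⟩, b, hb⟩ := wd_mem (lead t) θ hg hh
  have e1 := map_wd (MonoidHom.fst _ _) θ (g, Multiplicative.ofAdd x) (h, Multiplicative.ofAdd y)
  have e2 := map_wd (MonoidHom.snd _ _) θ (g, Multiplicative.ofAdd x) (h, Multiplicative.ofAdd y)
  simp only [MonoidHom.coe_fst, MonoidHom.coe_snd, wd_comm] at e1 e2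
  rw [e1, e2] at ha hb
  simp only [toAdd_pow, toAdd_ofAdd, Prod.smul_fst, Prod.smul_snd] at ha hb
  rw [nsmul_eq_mul] at ha hb
  push_cast at ha hb
  obtain ⟨d, hd⟩ := hθ
  exact ⟨⟨a + d * x.1, by linear_combination ha + x.1 * t * hd⟩,
    b + d * x.2, by linear_combination hb + x.2 * t * hd⟩

theorem iter_lead (t : S) (η : Sˣ) (hη : (η : S) = 1 + t) (θ : ℕ) (hθ : t ∣ 24 * θ - 1) (c : ℕ) :
    t ^ (c + 2) ∣ (iter (wd θ (oB η) (oA η)) (wd θ (oA η) (oB η)) c).n - 2 ^ c * t ^ (c + 1) := by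
  have hi := η.inv_mul
  have hB : (oB η, Multiplicative.ofAdd ((-1, 1) : S × S)) ∈ lead t :=
    ⟨⟨↑η⁻¹, by
      simp only [oB, toAdd_ofAdd]
      linear_combination (1 - t) * hi - (1 - t) * ↑η⁻¹ * hη⟩, by simp [oB, hη]⟩
  have hA : (oA η, Multiplicative.ofAdd ((-2, 0) : S × S)) ∈ lead t := by
    have := (lead t).mul_mem hB hB
    refine ⟨?_, by simp [oA]⟩
    have h := this.1
    simp only [Prod.mk_mul_mk, Aff.mul_y, toAdd_mul, toAdd_ofAdd, Prod.fst_add, oB] at h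
    simp only [oA, toAdd_ofAdd, mul_inv]
    convert h using 4
    ring
  obtain ⟨⟨a, ha⟩, b, hb⟩ := lead_wd t θ hθ _ _ _ _ hA hB
  obtain ⟨⟨a', ha'⟩, hb'⟩ := lead_wd t θ hθ _ _ _ _ hB hA
  generalize wd θ (oA η) (oB η) = q at *
  generalize wd θ (oB η) (oA η) = p at *
  have : t ^ (c + 1) ∣ (iter p q c).y - 1 ∧
      t ^ (c + 2) ∣ (iter p q c).n - 2 ^ c * t ^ (c + 1) := by
    induction c with
    | zero => exact ⟨⟨a' * t - 1, by rw [iter]; linear_combination ha'⟩, by simpa [iter] using hb'⟩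
    | succ c ih =>
      obtain ⟨⟨d, hd⟩, f, hf⟩ := ih
      refine ⟨by rw [iter, Aff.comm_y]; simp, (2 - a * t) * f - a * 2 ^ c + d * b, ?_⟩
      rw [iter, Aff.comm_n, hd]
      simp only at ha hb
      linear_combination (1 - q.y : S) * hf - (2 ^ c * t ^ (c + 1) + t ^ (c + 2) * f) * ha +
        t ^ (c + 1) * d * hb
  exact this.2

theorem iter_n (p q : Aff S) (hp : p.y = 1) (c : ℕ) :
    (iter p q c).y = 1 ∧ (iter p q c).n = (1 - q.y) ^ c * p.n := by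
  induction c with
  | zero => simp [iter, hp]
  | succ c ih => exact ⟨Aff.comm_y _ _, by rw [iter, Aff.comm_n, ih.1, ih.2]; simp; ring⟩

theorem fst_wd (θ : ℕ) (p q : MulAut F × Aff S) : (wd θ p q).1 = wd θ p.1 q.1 :=
  map_wd (MonoidHom.fst _ _) θ p q

theorem snd_wd (θ : ℕ) (p q : MulAut F × Aff S) : (wd θ p q).2 = wd θ p.2 q.2 :=
  map_wd (MonoidHom.snd _ _) θ p q

theorem fst_iter (p q : MulAut F × Aff S) (c : ℕ) : (iter p q c).1 = iter p.1 q.1 c :=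
  map_iter (MonoidHom.fst _ _) p q c

theorem snd_iter (p q : MulAut F × Aff S) (c : ℕ) : (iter p q c).2 = iter p.2 q.2 c :=
  map_iter (MonoidHom.snd _ _) p q c

theorem strict_step (c : ℕ) :
    ∃ K' : Subgroup (F ⧸ (D F (c + 2) ⊔ derivedSeries F 3)), K'.Characteristic ∧ K'.FiniteIndex ∧
      ∀ K : Subgroup (F ⧸ D F (c + 1)), K.Characteristic → K.FiniteIndex → ∃ σ : MulAut F,
        (∃ g : F, ∀ x : F, (QuotientGroup.mk (σ x * (g * x * g⁻¹)⁻¹) : F ⧸ D F (c + 1)) ∈ K) ∧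
        ¬ ∃ g : F, ∀ x : F, (QuotientGroup.mk (σ x * (g * x * g⁻¹)⁻¹) :
          F ⧸ (D F (c + 2) ⊔ derivedSeries F 3)) ∈ K' := by
  have hco : ∀ m : ℕ, m.Coprime 5 → m.Coprime (5 ^ (c + 2)) := fun m h => h.pow_right _
  let η : (ZMod (5 ^ (c + 2)))ˣ := ZMod.unitOfCoprime 6 (hco 6 (by norm_num))
  have hη : (η : ZMod (5 ^ (c + 2))) = 1 + 5 := by simp [η]; norm_num
  have h5 : (5 : ZMod (5 ^ (c + 2))) ^ (c + 2) = 0 := by
    exact_mod_cast ZMod.natCast_self (5 ^ (c + 2))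
  have h2 : IsUnit (2 : ZMod (5 ^ (c + 2))) := by
    simpa using (ZMod.isUnit_iff_coprime 2 _).2 (hco 2 (by norm_num))
  have h4 : η ^ 4 ≠ 1 := by
    intro h
    have h' : ((1295 : ℕ) : ZMod (5 ^ (c + 2))) = 0 := by
      have := congrArg Units.val h
      rw [Units.val_pow_eq_pow_val, hη, Units.val_one] at this
      push_cast
      linear_combination this
    rw [ZMod.natCast_eq_zero_iff] at h'
    have := (pow_dvd_pow 5 (Nat.le_add_left 2 c)).trans h'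
    norm_num at this
  obtain ⟨K', a1, a2, a3⟩ := sep η h2 h4 (D F (c + 2) ⊔ derivedSeries F 3)
    (sup_le (lcs_ker 5 η hη _ h5) (der_ker η))
  refine ⟨K', a1, a2, fun K b1 b2 => ?_⟩
  obtain ⟨L, hL, b3⟩ := upper_bound c K b1 b2
  obtain ⟨θ, t1, t2, t3⟩ := exists_theta L hL
  have m1 := wd_mem (St η) θ (A_mem η) (B_mem η)
  have m2 := wd_mem (St η) θ (B_mem η) (A_mem η)
  refine ⟨_, ?_, a3 _ (iter_mem _ m2 m1 c) ?_⟩
  · rw [fst_iter]
    exact b3 _ _ m2.1 m1.1 (by rw [fst_wd]; exact t3) (by rw [fst_wd]; exact t2)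
  · rw [snd_iter, snd_wd, snd_wd]
    have := iter_lead 5 η hη θ (by simpa using (Int.castRingHom (ZMod (5 ^ (c + 2)))).map_dvd t1) c
    rw [h5, zero_dvd_iff, sub_eq_zero] at this
    rw [this]
    intro h
    rw [(h2.pow c).mul_right_eq_zero] at h
    have h' : ((5 ^ (c + 1) : ℕ) : ZMod (5 ^ (c + 2))) = 0 := by simpa using h
    rw [ZMod.natCast_eq_zero_iff, Nat.pow_dvd_pow_iff_le_right (by norm_num)] at h'
    omega

instance : Fact (Nat.Prime 11) := ⟨by norm_num⟩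

def eta11 : (ZMod 11)ˣ := ⟨3, 4, by decide, by decide⟩

theorem uniform_step :
    ∃ K' : Subgroup (F ⧸ derivedSeries F 3), K'.Characteristic ∧ K'.FiniteIndex ∧ ∀ c : ℕ,
      ∀ K : Subgroup (F ⧸ D F (c + 1)), K.Characteristic → K.FiniteIndex → ∃ σ : MulAut F,
        (∃ g : F, ∀ x : F, (QuotientGroup.mk (σ x * (g * x * g⁻¹)⁻¹) : F ⧸ D F (c + 1)) ∈ K) ∧
        ¬ ∃ g : F, ∀ x : F, (QuotientGroup.mk (σ x * (g * x * g⁻¹)⁻¹) :
          F ⧸ derivedSeries F 3) ∈ K' := by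
  obtain ⟨K', a1, a2, a3⟩ := sep eta11 (isUnit_iff_ne_zero.2 (by decide)) (by decide)
    (derivedSeries F 3) (der_ker eta11)
  refine ⟨K', a1, a2, fun c K b1 b2 => ?_⟩
  obtain ⟨L, hL, b3⟩ := upper_bound c K b1 b2
  obtain ⟨θ, t1, t2, -⟩ := exists_theta L hL
  have m1 := wd_mem (St eta11) θ (A_mem eta11) (B_mem eta11)
  have m0 := iter_mem _ (A_mem eta11) (B_mem eta11) 1
  have m2 := iter_mem _ m0 m1 1
  refine ⟨_, ?_, a3 _ (iter_mem _ m2 m1 c) ?_⟩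
  · rw [fst_iter]
    refine b3 _ _ m2.1 m1.1 ?_ (by rw [fst_wd]; exact t2)
    rw [fst_iter, fst_wd, map_iter, t2]
    exact commutatorElement_one_right _
  · rw [snd_iter, snd_iter, snd_iter, snd_wd]
    have hy : (wd θ (oA eta11) (oB eta11)).y = (oA eta11).y := by
      have := map_wd Aff.yHom θ (oA eta11) (oB eta11)
      rw [wd_comm, ← zpow_natCast, zpow_congr _ 5 (by decide) _ 1 (by simpa using t1),
        zpow_one] at this
      exact this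
    have y0 : (iter (oA eta11) (oB eta11) 1).y = 1 := Aff.comm_y _ _
    rw [(iter_n _ _ (iter_n _ _ y0 1).1 c).2, (iter_n _ _ y0 1).2, hy]
    refine mul_ne_zero (pow_ne_zero _ (by decide)) (mul_ne_zero (by decide) ?_)
    change (⁅oA eta11, oB eta11⁆ : Aff (ZMod 11)).n ≠ 0
    rw [Aff.comm_n]
    decide

theorem mono_step (N N' : Subgroup F) [N.Normal] [N'.Normal] (h : N' ≤ N)
    (K : Subgroup (F ⧸ N)) (hK : K.Characteristic) (hK' : K.FiniteIndex) :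
    ∃ K' : Subgroup (F ⧸ N'), K'.Characteristic ∧ K'.FiniteIndex ∧
      ∀ z : F, (QuotientGroup.mk z : F ⧸ N') ∈ K' → (QuotientGroup.mk z : F ⧸ N) ∈ K := by
  obtain ⟨K', a1, a2, a3⟩ := exists_char N' ((F ⧸ N) ⧸ K)
  refine ⟨K', a1, a2, fun z hz => ?_⟩
  have := a3 ((QuotientGroup.mk' K).comp (QuotientGroup.mk' N)) (fun x hx => by
    rw [MonoidHom.mem_ker, MonoidHom.comp_apply, QuotientGroup.mk'_apply N,
      (QuotientGroup.eq_one_iff x).2 (h hx), map_one]) z hz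
  exact (QuotientGroup.eq_one_iff _).1 this

end Pool.Agent.MP_6c678b_al.Nil
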