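import Mathlib
import Pool.Agent.Mg.F6c678b.G03d867

section

/-! Abstract calculus of transvections and growth of frames. -/

set_option autoImplicit false

namespace Pool.Agent.MP_6c678b_al.Inv

open Finset

/-- A pairing with a relation that behaves like the set of transvections in a group. -/
structure TS (k E D : Type*) [Field k] [AddCommGroup E] [Module k E] [AddCommGroup D]
    [Module k D] where
  β : E →ₗ[k] D →ₗ[k] k
  T : E → D → Prop
  zero : ∀ {y x}, T y x → β y x = 0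
  t0 : ∀ y, T y 0
  t0' : ∀ x, T 0 x
  add1 : ∀ {y y' x}, T y x → T y' x → T (y + y') x
  add2 : ∀ {y x x'}, T y x → T y x' → T y (x + x')
  smul1 : ∀ {y x} (c : k), T y x → T (c • y) x
  smul2 : ∀ {y x} (c : k), T y x → T y (c • x)
  conj : ∀ {l φ m θ}, T l φ → T m θ → T (m - β m φ • l) (θ + β l θ • φ)

variable {k E D : Type*} [Field k] [AddCommGroup E] [Module k E] [AddCommGroup D] [Module k D]

namespace TS

variable (S : TS k E D)

theorem sub2 {y : E} {x x' : D} (h : S.T y x) (h' : S.T y x') : S.T y (x - x') := by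
  simpa [sub_eq_add_neg] using S.add2 h (S.smul2 (-1) h')

theorem sub1 {y y' : E} {x : D} (h : S.T y x) (h' : S.T y' x) : S.T (y - y') x := by
  simpa [sub_eq_add_neg] using S.add1 h (S.smul1 (-1) h')

theorem sum2 {ι : Type*} (s : Finset ι) {y : E} {x : ι → D} (h : ∀ i ∈ s, S.T y (x i)) :
    S.T y (∑ i ∈ s, x i) := Finset.sum_induction _ _ (fun _ _ => S.add2) (S.t0 y) h

theorem t3 {l m : E} {φ θ : D} (h : S.T l φ) (h' : S.T m θ) (h1 : S.β m φ = 0)
    (h2 : S.β l θ ≠ 0) : S.T m φ := by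
  have a := S.conj h h'
  rw [h1, zero_smul, sub_zero] at a
  simpa [smul_smul, inv_mul_cancel₀ h2] using S.smul2 (S.β l θ)⁻¹ (S.sub2 a h')

end TS

/-- Dual bases whose elementary transvections are realised. -/
structure Fr (S : TS k E D) {m : ℕ} (f : Fin m → E) (e : Fin m → D) : Prop where
  dual : ∀ i j, S.β (f i) (e j) = if i = j then 1 else 0
  el : ∀ i j, i ≠ j → S.T (f i) (e j)

variable {S : TS k E D} {m : ℕ} {f : Fin m → E} {e : Fin m → D}

/-- Component in the span of the frame. -/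
def pW (S : TS k E D) (f : Fin m → E) (e : Fin m → D) (x : D) : D := ∑ i, S.β (f i) x • e i

theorem Fr.pW (h : Fr S f e) (i : Fin m) (x : D) : S.β (f i) (pW S f e x) = S.β (f i) x := by
  simp [Inv.pW, h.dual]

theorem Fr.pZ (h : Fr S f e) (i : Fin m) (x : D) : S.β (f i) (x - Inv.pW S f e x) = 0 := by
  rw [map_sub, h.pW, sub_self]

theorem Fr.pair (h : Fr S f e) {i j : Fin m} (hij : i ≠ j) (x : D) :
    S.T (S.β (f j) x • f i - S.β (f i) x • f j) (Inv.pW S f e x) := by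
  classical
  have h1 : Inv.pW S f e x = (S.β (f i) x • e i + S.β (f j) x • e j) +
      ∑ l ∈ (univ.erase i).erase j, S.β (f l) x • e l := by
    rw [Inv.pW, ← add_sum_erase _ _ (mem_univ i),
      ← add_sum_erase _ _ (mem_erase.2 ⟨hij.symm, mem_univ j⟩), add_assoc]
  rw [h1]
  refine S.add2 ?_ (S.sum2 _ fun l hl => S.smul2 _ (S.sub1 (S.smul1 _ (h.el _ _ ?_))
    (S.smul1 _ (h.el _ _ ?_))))
  · by_cases hj : S.β (f j) x = 0
    · simpa [hj] using S.smul1 (-S.β (f i) x) (S.smul2 (S.β (f i) x) (h.el j i hij.symm))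
    · have a := S.conj (S.smul2 (S.β (f i) x / S.β (f j) x) (h.el j i hij.symm)) (h.el i j hij)
      have b := S.smul1 (S.β (f j) x) (S.smul2 (S.β (f j) x) a)
      simp only [map_smul, h.dual, if_true, smul_eq_mul, mul_one, one_mul, smul_sub, smul_add,
        smul_smul, mul_div_cancel₀ _ hj] at b
      rwa [add_comm]
  · exact (mem_erase.1 (mem_erase.1 hl).2).1.symm
  · exact (mem_erase.1 hl).1.symm

/-- The set of vectors outside the frame that are joined to it. -/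
def Rr (S : TS k E D) (f : Fin m → E) (z : D) : Prop :=
  (∀ i, S.β (f i) z = 0) ∧ ∀ i, S.T (f i) z

theorem Fr.k0 (h : Fr S f e) (hm : 2 ≤ m) {χ φ : E} {x v : D} (hT : S.T χ x) (h1 : S.T φ v)
    (h2 : S.T φ (Inv.pW S f e x)) (h3 : S.β φ x = 0) (h4 : S.β χ v ≠ 0) {i : Fin m}
    (h5 : S.β φ (e i) ≠ 0) : Rr S f (x - Inv.pW S f e x) := by
  have a := S.sub2 (S.t3 hT h1 h3 h4) h2
  have b : ∀ j, j ≠ i → S.T (f j) (x - Inv.pW S f e x) := fun j hj =>
    S.t3 a (h.el j i hj) (h.pZ j x) h5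
  refine ⟨fun j => h.pZ j x, fun j => ?_⟩
  by_cases hj : j = i
  · have : Nontrivial (Fin m) := Fin.nontrivial_iff_two_le.2 hm
    obtain ⟨l, hl⟩ := exists_ne i
    exact S.t3 (b l hl) (h.el j l (hj ▸ hl.symm)) (h.pZ j x) (by simp [h.dual])
  · exact b j hj

theorem Fr.k1 (h : Fr S f e) (hm : 3 ≤ m) {χ : E} {x : D} (hT : S.T χ x) {i : Fin m}
    (hi : S.β χ (e i) ≠ 0) : Rr S f (x - Inv.pW S f e x) := by
  classical
  obtain ⟨j, l, h1, h2, h3⟩ : ∃ j l : Fin m, j ≠ i ∧ l ≠ i ∧ j ≠ l := by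
    have : 1 < (univ.erase i).card := by
      rw [card_erase_of_mem (mem_univ i), card_univ, Fintype.card_fin]; omega
    obtain ⟨j, a, l, b, c⟩ := one_lt_card.1 this
    exact ⟨j, l, (mem_erase.1 a).1, (mem_erase.1 b).1, c⟩
  by_cases hj : S.β (f j) x = 0
  · refine h.k0 (by omega) hT (h.el j i h1) (S.sum2 _ fun t _ => ?_) hj hi (i := j)
      (by simp [h.dual])
    by_cases ht : j = t
    · rw [← ht, hj, zero_smul]; exact S.t0 _
    · exact S.smul2 _ (h.el j t ht)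
  · refine h.k0 (by omega) hT (S.sub1 (S.smul1 _ (h.el j i h1)) (S.smul1 _ (h.el l i h2)))
      (h.pair h3 x) (by simp [mul_comm]) hi (i := l) (by simp [h.dual, h3, hj])

theorem Fr.k2 {f : Fin 2 → E} {e : Fin 2 → D} (h : Fr S f e) {χ : E} {x : D} (hT : S.T χ x)
    (hx : S.β χ (Inv.pW S f e x) ≠ 0) : Rr S f (x - Inv.pW S f e x) := by
  have a := h.pair (i := 0) (j := 1) (by decide) x
  by_cases h0 : S.β (f 0) x = 0
  · refine h.k0 le_rfl hT a a (by simp [mul_comm]) hx (i := 0) ?_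
    have : S.β (f 1) x ≠ 0 := fun h1 => hx (by simp [Inv.pW, h0, h1])
    simpa [h.dual]
  · exact h.k0 le_rfl hT a a (by simp [mul_comm]) hx (i := 1) (by simpa [h.dual])

/-- The symmetric structure. -/
def TS.swap (S : TS k E D) : TS k D E where
  β := S.β.flip
  T x y := S.T y x
  zero := S.zero
  t0 := S.t0'
  t0' := S.t0
  add1 := S.add2
  add2 := S.add1
  smul1 := S.smul2
  smul2 := S.smul1
  conj h h' := by simpa [sub_eq_add_neg] using S.conj (S.smul2 (-1) h) h'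

theorem Fr.swap (h : Fr S f e) : Fr S.swap e f :=
  ⟨fun i j => by simpa [TS.swap, eq_comm] using h.dual j i, fun i j hij => h.el j i hij.symm⟩

theorem Fr.cons (h : Fr S f e) {z : D} {ζ : E} (hz : Rr S f z) (hζ : Rr S.swap e ζ)
    (h0 : S.β ζ z ≠ 0) :
    Fr S (Fin.cons ((S.β ζ z)⁻¹ • ζ) f : Fin (m + 1) → E) (Fin.cons z e : Fin (m + 1) → D) := by
  refine ⟨fun i j => ?_, fun i j hij => ?_⟩
  · refine Fin.cases ?_ (fun i => ?_) i <;> refine Fin.cases ?_ (fun j => ?_) j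
    · simp [h0]
    · have : S.β ζ (e j) = 0 := hζ.1 j
      simp [this, (Fin.succ_ne_zero j).symm]
    · simp [hz.1 i]
    · simp [h.dual]
  · revert hij
    refine Fin.cases ?_ (fun i => ?_) i <;> refine Fin.cases ?_ (fun j => ?_) j <;> intro hij
    · exact absurd rfl hij
    · exact S.smul1 _ (hζ.2 j)
    · exact hz.2 i
    · exact h.el i j fun a => hij (congrArg _ a)

theorem β_pW (χ : E) (x : D) :
    S.β χ (Inv.pW S f e x) = ∑ i, S.β χ (e i) * S.β (f i) x := by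
  simp [Inv.pW, mul_comm]

theorem β_pW' (χ : E) (x : D) :
    S.β (Inv.pW S.swap e f χ) x = ∑ i, S.β χ (e i) * S.β (f i) x := by
  simp [Inv.pW, TS.swap]

theorem Fr.lemL (h : Fr S f e) (hm : 3 ≤ m) (h0 : ∀ z ζ, Rr S f z → Rr S.swap e ζ → S.β ζ z = 0)
    {χ : E} {x u : D} (hT : S.T χ x) (hu : Rr S f (u - Inv.pW S f e u)) (hc : S.β χ u ≠ 0) :
    Rr S f (x - Inv.pW S f e x) := by
  by_cases h1 : ∃ i, S.β χ (e i) ≠ 0
  · obtain ⟨i, hi⟩ := h1
    exact h.k1 hm hT hi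
  push Not at h1
  have h2 : S.β χ (u - Inv.pW S f e u) ≠ 0 := by simpa [β_pW, h1]
  by_cases h3 : ∃ i, S.β (f i) x ≠ 0
  · obtain ⟨i, hi⟩ := h3
    have a := h.swap.k1 hm (χ := x) (x := χ) hT (i := i) hi
    have b : Inv.pW S.swap e f χ = 0 := by simp [Inv.pW, TS.swap, h1]
    rw [b, sub_zero] at a
    exact absurd (h0 _ _ hu a) h2
  push Not at h3
  have b : Inv.pW S f e x = 0 := by simp [Inv.pW, h3]
  rw [b, sub_zero]
  exact ⟨h3, fun i => S.t3 hT (hu.2 i) (h3 i) h2⟩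

/-- A sequence of transvections whose Gram matrix is periodic up to a constant. -/
structure Sq (S : TS k E D) (l : ℕ → E) (φ : ℕ → D) (N : ℕ) (c : k) : Prop where
  tr : ∀ j, S.T (l j) (φ j)
  sh1 : ∀ i j, S.β (l (i + N)) (φ j) = S.β (l i) (φ j) + c
  sh2 : ∀ i j, S.β (l i) (φ (j + N)) = S.β (l i) (φ j) - c
  ne : c ≠ 0

variable {l : ℕ → E} {φ : ℕ → D} {N : ℕ} {c : k}

theorem Sq.swap (q : Sq S l φ N c) : Sq S.swap φ l N (-c) :=
  ⟨q.tr, fun i j => by simpa [TS.swap, sub_eq_add_neg] using q.sh2 j i,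
    fun i j => by simpa [TS.swap] using q.sh1 j i, neg_ne_zero.2 q.ne⟩

theorem Fr.all (h : Fr S f e) (hm : 3 ≤ m) (h0 : ∀ z ζ, Rr S f z → Rr S.swap e ζ → S.β ζ z = 0)
    (q : Sq S l φ N c) (h1 : ∃ j i, S.β (l j) (e i) ≠ 0) (j : ℕ) :
    Rr S f (φ j - Inv.pW S f e (φ j)) := by
  obtain ⟨j0, i, hi⟩ := h1
  have a := h.k1 hm (q.tr j0) hi
  by_cases b : S.β (l j) (φ j0) = 0
  · have d := h.lemL hm h0 (q.tr (j + N)) a (by rw [q.sh1, b, zero_add]; exact q.ne)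
    refine h.lemL hm h0 (q.tr j) d ?_
    rw [q.sh2, S.zero (q.tr j), zero_sub]
    exact neg_ne_zero.2 q.ne
  · exact h.lemL hm h0 (q.tr j) a b

/-- Frames of a given size that pair with the sequence. -/
def Has (S : TS k E D) (l : ℕ → E) (φ : ℕ → D) (m : ℕ) : Prop :=
  ∃ (f : Fin m → E) (e : Fin m → D), Fr S f e ∧ (∃ j i, S.β (l j) (e i) ≠ 0) ∧
    ∃ j i, S.β (f i) (φ j) ≠ 0

theorem Fr.has (h : Fr S f e) (h1 : ∃ j i, S.β (l j) (e i) ≠ 0) (h2 : ∃ j i, S.β (f i) (φ j) ≠ 0)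
    {z : D} {ζ : E} (hz : Rr S f z) (hζ : Rr S.swap e ζ) (h0 : S.β ζ z ≠ 0) :
    Has S l φ (m + 1) := by
  obtain ⟨j, i, a⟩ := h1
  obtain ⟨j', i', b⟩ := h2
  exact ⟨_, _, h.cons hz hζ h0, ⟨j, i.succ, a⟩, ⟨j', i'.succ, b⟩⟩

theorem Sq.step (q : Sq S l φ N c) (hm : 3 ≤ m) (H : Has S l φ m)
    (hr : ∀ a b : ℕ → Fin m → k, ¬ ∀ i j, S.β (l i) (φ j) = ∑ t, a i t * b j t) :
    Has S l φ (m + 1) := by
  obtain ⟨f, e, h, h1, h2⟩ := H
  by_contra hn
  have h0 : ∀ z ζ, Rr S f z → Rr S.swap e ζ → S.β ζ z = 0 := fun z ζ hz hζ => by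
    by_contra h3
    exact hn (h.has h1 h2 hz hζ h3)
  refine hr (fun i t => S.β (l i) (e t)) (fun j t => S.β (f t) (φ j)) fun i j => ?_
  have a := h.all hm h0 q h1 j
  have b := h.swap.all hm (fun ζ z hζ hz => h0 z ζ hz hζ) q.swap h2 i
  have d := h0 _ _ a b
  rw [map_sub S.β, LinearMap.sub_apply, β_pW', map_sub, β_pW] at d
  simpa [a.1, sub_eq_zero] using d

theorem Sq.three (q : Sq S l φ N c) {s : ℕ} (hs : S.β (l s) (φ 0) + S.β (l 0) (φ s) ≠ 0) :
    Has S l φ 3 := by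
  have c0 := q.ne
  have z := fun j => S.zero (q.tr j)
  have a1 : ∀ j, S.β (l N) (φ j) = S.β (l 0) (φ j) + c := fun j => by simpa using q.sh1 0 j
  have a2 : ∀ j, S.β (l j) (φ N) = S.β (l j) (φ 0) - c := fun j => by simpa using q.sh2 j 0
  have h : Fr S ![l N, l 0] ![c⁻¹ • φ 0, -c⁻¹ • φ N] := by
    refine ⟨fun i j => ?_, fun i j hij => ?_⟩
    · fin_cases i <;> fin_cases j
      · simp [a1, z, c0]
      · simp [z]
      · simp [z]
      · simp [a2, z, c0]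
    · fin_cases i <;> fin_cases j
      · exact absurd rfl hij
      · exact S.smul2 _ (q.tr N)
      · exact S.smul2 _ (q.tr 0)
      · exact absurd rfl hij
  have b : ∑ i, S.β (l s) (![c⁻¹ • φ 0, -c⁻¹ • φ N] i) * S.β (![l N, l 0] i) (φ s) ≠ 0 := by
    convert hs using 1
    simp [a1, a2]
    field_simp
    ring
  have hz := h.k2 (q.tr s) (by rwa [β_pW])
  have hζ := h.swap.k2 (χ := φ s) (x := l s) (q.tr s) (b ∘ (β_pW' _ _).symm.trans)
  refine h.has ⟨N, 0, ?_⟩ ⟨0, 0, ?_⟩ hz hζ ?_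
  · simp [a1, z, c0]
  · simp [a1, z, c0]
  · rw [map_sub S.β, LinearMap.sub_apply, β_pW', map_sub, β_pW, z]
    simp only [hz.1, mul_zero, sum_const_zero, sub_zero, zero_sub]
    exact neg_ne_zero.2 b

theorem Sq.has (q : Sq S l φ N c) {s : ℕ} (hs : S.β (l s) (φ 0) + S.β (l 0) (φ s) ≠ 0) (n : ℕ)
    (hr : ∀ m < n + 3, ∀ a b : ℕ → Fin m → k, ¬ ∀ i j, S.β (l i) (φ j) = ∑ t, a i t * b j t) :
    Has S l φ (n + 3) := by
  induction n with
  | zero => exact q.three hs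
  | succ n ih =>
    exact q.step (by omega) (ih fun m hm => hr m (by omega)) (hr _ (by omega))

end Pool.Agent.MP_6c678b_al.Inv

end

section

/-! Affine extension of the Heisenberg group in its Schroedinger representation, and the action
of automorphisms of the free group on cocycles. -/

set_option autoImplicit false

namespace Pool.Agent.MP_6c678b_al.Inv

open Nil Finset
open scoped commutatorElement

variable {A k : Type} [CommRing A] [Field k]

/-- The affine map `z ↦ (κ ↦ ψ (e + s κ) z (κ - t) + d κ)`. -/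
@[ext] structure Hs (ψ : AddChar A k) where
  e : A
  s : A
  t : A
  d : A → k

variable {ψ : AddChar A k}

namespace Hs

instance : Mul (Hs ψ) := ⟨fun x y => ⟨x.e + y.e - y.s * x.t, x.s + y.s, x.t + y.t,
  fun κ => ψ (x.e + x.s * κ) * y.d (κ - x.t) + x.d κ⟩⟩
instance : One (Hs ψ) := ⟨⟨0, 0, 0, 0⟩⟩
instance : Inv (Hs ψ) := ⟨fun x => ⟨-x.e - x.s * x.t, -x.s, -x.t,
  fun κ => -(ψ (-x.e - x.s * x.t - x.s * κ) * x.d (κ + x.t))⟩⟩

@[simp] theorem mul_e (x y : Hs ψ) : (x * y).e = x.e + y.e - y.s * x.t := rfl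
@[simp] theorem mul_s (x y : Hs ψ) : (x * y).s = x.s + y.s := rfl
@[simp] theorem mul_t (x y : Hs ψ) : (x * y).t = x.t + y.t := rfl
@[simp] theorem mul_d (x y : Hs ψ) (κ : A) :
    (x * y).d κ = ψ (x.e + x.s * κ) * y.d (κ - x.t) + x.d κ := rfl
@[simp] theorem one_e : (1 : Hs ψ).e = 0 := rfl
@[simp] theorem one_s : (1 : Hs ψ).s = 0 := rfl
@[simp] theorem one_t : (1 : Hs ψ).t = 0 := rfl
@[simp] theorem one_d (κ : A) : (1 : Hs ψ).d κ = 0 := rfl
@[simp] theorem inv_e (x : Hs ψ) : x⁻¹.e = -x.e - x.s * x.t := rfl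
@[simp] theorem inv_s (x : Hs ψ) : x⁻¹.s = -x.s := rfl
@[simp] theorem inv_t (x : Hs ψ) : x⁻¹.t = -x.t := rfl
@[simp] theorem inv_d (x : Hs ψ) (κ : A) :
    x⁻¹.d κ = -(ψ (-x.e - x.s * x.t - x.s * κ) * x.d (κ + x.t)) := rfl

instance : Group (Hs ψ) := Group.ofLeftAxioms
  (fun x y z => by
    ext κ
    · simp; ring
    · simp; ring
    · simp; ring
    · simp only [mul_d, mul_e, mul_s, mul_t, mul_add (ψ _), ← mul_assoc,
        ← AddChar.map_add_eq_mul, add_assoc, sub_sub]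
      congr 3; ring)
  (fun x => by ext <;> simp)
  (fun x => by
    ext κ
    · simp; ring
    · simp
    · simp
    · simp only [mul_d, inv_d, inv_e, inv_s, inv_t, one_d, sub_neg_eq_add, neg_mul,
        ← sub_eq_add_neg, sub_self])

instance [Finite A] [Finite k] : Finite (Hs ψ) :=
  Finite.of_injective (fun x : Hs ψ => (x.e, x.s, x.t, x.d)) fun x y h => by
    simp only [Prod.mk.injEq] at h
    exact Hs.ext h.1 h.2.1 h.2.2.1 h.2.2.2

def P1 (ψ : AddChar A k) : Subgroup (Hs ψ) where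
  carrier := {x | x.s = 0 ∧ x.t = 0}
  one_mem' := ⟨rfl, rfl⟩
  mul_mem' := fun {x y} hx hy => by simp [hx.1, hx.2, hy.1, hy.2]
  inv_mem' := fun {x} hx => by simp [hx.1, hx.2]

def P2 (ψ : AddChar A k) : Subgroup (Hs ψ) where
  carrier := {x | x.e = 0 ∧ x.s = 0 ∧ x.t = 0}
  one_mem' := ⟨rfl, rfl, rfl⟩
  mul_mem' := fun {x y} hx hy => by simp [hx.1, hx.2.1, hx.2.2, hy.1, hy.2.1, hy.2.2]
  inv_mem' := fun {x} hx => by simp [hx.1, hx.2.1, hx.2.2]

theorem der3 : derivedSeries (Hs ψ) 3 ≤ ⊥ := by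
  have h1 : derivedSeries (Hs ψ) 1 ≤ P1 ψ := Subgroup.commutator_le.2 fun x _ y _ => by
    constructor <;> simp [commutatorElement_def]
  have h2 : derivedSeries (Hs ψ) 2 ≤ P2 ψ := Subgroup.commutator_le.2 fun x hx y hy => by
    obtain ⟨a, b⟩ := h1 hx
    obtain ⟨c, d⟩ := h1 hy
    refine ⟨?_, ?_, ?_⟩ <;> simp [commutatorElement_def, a, b, c, d]
  refine Subgroup.commutator_le.2 fun x hx y hy => ?_
  obtain ⟨a, b, c⟩ := h2 hx
  obtain ⟨d, e, f⟩ := h2 hy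
  rw [Subgroup.mem_bot, commutatorElement_eq_one_iff_mul_comm]
  ext <;> simp [a, b, c, d, e, f, add_comm]

end Hs

/-- Cocycles. -/
abbrev Zc (A k : Type) := (A → k) × (A → k)

/-- The affine action attached to a cocycle. -/
def hx (ψ : AddChar A k) (ξ : Zc A k) : F →* Hs ψ :=
  FreeGroup.lift ![⟨0, 1, 0, ξ.1⟩, ⟨0, 0, 1, ξ.2⟩]

theorem hx_a (ξ : Zc A k) : hx ψ ξ ga = ⟨0, 1, 0, ξ.1⟩ := by simp [hx, ga]
theorem hx_b (ξ : Zc A k) : hx ψ ξ gb = ⟨0, 0, 1, ξ.2⟩ := by simp [hx, gb]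

theorem hx_ker (ξ : Zc A k) : derivedSeries F 3 ≤ (hx ψ ξ).ker := fun x h =>
  Hs.der3 (map_derivedSeries_le_derivedSeries (hx ψ ξ) 3 ⟨x, h, rfl⟩)

theorem hx_inj {ξ η : Zc A k} (h : ∀ x, hx ψ ξ x = hx ψ η x) : ξ = η := by
  have a := congrArg Hs.d (h ga)
  have b := congrArg Hs.d (h gb)
  rw [hx_a, hx_a] at a
  rw [hx_b, hx_b] at b
  exact Prod.ext a b

/-- The automorphism `σ` fixes the linear part and acts on cocycles by `M`. -/
def Rl (ψ : AddChar A k) (σ : MulAut F) (M : Zc A k → Zc A k) : Prop :=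
  ∀ ξ x, hx ψ ξ (σ x) = hx ψ (M ξ) x

theorem Rl.mul {σ τ : MulAut F} {M M' : Zc A k → Zc A k} (h : Rl ψ σ M) (h' : Rl ψ τ M') :
    Rl ψ (σ * τ) fun ξ => M' (M ξ) := fun ξ x => (h ξ _).trans (h' _ x)

theorem Rl.inv [Finite A] [Finite k] {σ : MulAut F} {M : Zc A k → Zc A k} (h : Rl ψ σ M) :
    ∃ M', Rl ψ σ⁻¹ M' ∧ ∀ ξ, M (M' ξ) = ξ := by
  have h1 : Function.Injective M := fun ξ η e => hx_inj (ψ := ψ) fun x => by
    obtain ⟨y, rfl⟩ := σ.surjective x
    rw [h, h, e]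
  obtain ⟨M', h2⟩ := (Finite.surjective_of_injective h1).hasRightInverse
  refine ⟨M', fun ξ x => ?_, h2⟩
  have := h (M' ξ) (σ⁻¹ x)
  rw [h2] at this
  simpa using this.symm

/-- Coboundaries. -/
def cob (ψ : AddChar A k) (z : A → k) : Zc A k :=
  (fun κ => ψ κ * z κ - z κ, fun κ => z (κ - 1) - z κ)

theorem hx_cob (z : A → k) (x : F) :
    hx ψ (cob ψ z) x = (⟨0, 0, 0, z⟩ : Hs ψ)⁻¹ * hx ψ 0 x * ⟨0, 0, 0, z⟩ := by
  have : hx ψ (cob ψ z) = (MulAut.conj (⟨0, 0, 0, z⟩ : Hs ψ)⁻¹).toMonoidHom.comp (hx ψ 0) := by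
    apply hom_ext
    · ext <;> simp [hx_a, cob, sub_eq_add_neg]
    · ext <;> simp [hx_b, cob, sub_eq_add_neg]
  simp [this]

theorem Rl.cob {σ : MulAut F} {M : Zc A k → Zc A k} (h : Rl ψ σ M) (h0 : M 0 = 0) (z : A → k) :
    M (cob ψ z) = cob ψ z := hx_inj (ψ := ψ) fun x => by
  rw [← h, hx_cob, hx_cob, h, h0]

theorem Rl.inner {σ : MulAut F} {M : Zc A k → Zc A k}
    (h : Rl ψ σ M) (ξ : Zc A k) {g : F}
    (hg : ∀ x, hx ψ ξ (σ x * (g * x * g⁻¹)⁻¹) = 1) :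
    ∃ c : k, c ≠ 0 ∧ ∃ z, M ξ = c • ξ - Inv.cob ψ z := by
  have h1 : ∀ x, hx ψ (M ξ) x * hx ψ ξ g = hx ψ ξ g * hx ψ ξ x := fun x => by
    have := hg x
    rw [map_mul, map_inv, mul_inv_eq_one, h, map_mul, map_mul, map_inv] at this
    rw [this, inv_mul_cancel_right]
  have a := h1 ga
  have b := h1 gb
  rw [hx_a, hx_a] at a
  rw [hx_b, hx_b] at b
  have ht : (hx ψ ξ g).t = 0 := by simpa [eq_sub_iff_add_eq] using congrArg Hs.e a
  have hs : (hx ψ ξ g).s = 0 := by simpa using congrArg Hs.e b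
  refine ⟨ψ (hx ψ ξ g).e, fun h0 => ?_, (hx ψ ξ g).d, ?_⟩
  · simpa [h0] using (ψ.map_add_eq_mul (hx ψ ξ g).e (-(hx ψ ξ g).e))
  · ext κ
    · have := congrFun (congrArg Hs.d a) κ
      simp [hs, ht] at this
      simp [Inv.cob]
      linear_combination this
    · have := congrFun (congrArg Hs.d b) κ
      simp [hs, ht] at this
      simp [Inv.cob]
      linear_combination this

theorem Rl.congr {σ : MulAut F} {M M' : Zc A k → Zc A k} (h : Rl ψ σ M) (e : ∀ ξ, M ξ = M' ξ) :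
    Rl ψ σ M' := fun ξ x => e ξ ▸ h ξ x

/-- Realised transvections. -/
def Tv (ψ : AddChar A k) (v : Zc A k) (φ : Zc A k →ₗ[k] k) : Prop :=
  φ v = 0 ∧ ∃ σ, Rl ψ σ fun ξ => ξ + φ ξ • v

theorem Tv.add1 {v w : Zc A k} {φ : Zc A k →ₗ[k] k} (h : Tv ψ v φ) (h' : Tv ψ w φ) :
    Tv ψ (v + w) φ := by
  obtain ⟨a, σ, h⟩ := h
  obtain ⟨b, τ, h'⟩ := h'
  exact ⟨by simp [a, b], _, (h.mul h').congr fun ξ => by simp [a, add_assoc]⟩

theorem Tv.add2 {v : Zc A k} {φ θ : Zc A k →ₗ[k] k} (h : Tv ψ v φ) (h' : Tv ψ v θ) :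
    Tv ψ v (φ + θ) := by
  obtain ⟨a, σ, h⟩ := h
  obtain ⟨b, τ, h'⟩ := h'
  exact ⟨by simp [a, b], _, (h.mul h').congr fun ξ => by simp [b, add_assoc, add_smul]⟩

theorem tv0 (v : Zc A k) : Tv ψ v 0 := ⟨rfl, 1, fun ξ x => by simp⟩

theorem tv0' (φ : Zc A k →ₗ[k] k) : Tv ψ 0 φ := ⟨by simp, 1, fun ξ x => by simp⟩

theorem Tv.smul1 (hk : ∀ c : k, ∃ n : ℕ, c = n) {v : Zc A k} {φ : Zc A k →ₗ[k] k} (c : k)
    (h : Tv ψ v φ) : Tv ψ (c • v) φ := by
  obtain ⟨n, rfl⟩ := hk c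
  induction n with
  | zero => simpa using tv0' φ
  | succ n ih => simpa [add_smul] using ih.add1 h

theorem Tv.smul2 (hk : ∀ c : k, ∃ n : ℕ, c = n) {v : Zc A k} {φ : Zc A k →ₗ[k] k} (c : k)
    (h : Tv ψ v φ) : Tv ψ v (c • φ) := by
  obtain ⟨n, rfl⟩ := hk c
  induction n with
  | zero => simpa using tv0 v
  | succ n ih => simpa [add_smul] using ih.add2 h

/-- The transvection structure of the model. -/
def ts (ψ : AddChar A k) (hk : ∀ c : k, ∃ n : ℕ, c = n) : TS k (Zc A k) (Zc A k →ₗ[k] k) where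
  β := LinearMap.applyₗ
  T := Tv ψ
  zero h := h.1
  t0 := tv0
  t0' := tv0'
  add1 := Tv.add1
  add2 := Tv.add2
  smul1 := Tv.smul1 hk
  smul2 := Tv.smul2 hk
  conj := fun {l φ m θ} h h' => by
    obtain ⟨-, ρ, h''⟩ := h.smul1 hk (-1)
    obtain ⟨a, σ, h⟩ := h
    obtain ⟨b, τ, h'⟩ := h'
    refine ⟨by simp [a, b, mul_comm], _, ((h.mul h').mul h'').congr fun ξ => ?_⟩
    simp only [map_add, map_smul, a, LinearMap.applyₗ_apply_apply, LinearMap.add_apply,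
      LinearMap.smul_apply, smul_eq_mul]
    module

theorem Tv.cob {v : Zc A k} {φ : Zc A k →ₗ[k] k} (h : Tv ψ v φ) (hv : v ≠ 0) (z : A → k) :
    φ (cob ψ z) = 0 := by
  obtain ⟨-, σ, h⟩ := h
  simpa [hv] using h.cob (by simp) z

variable [Finite A] [Finite k] {ι : Type}

/-- Automorphisms permuting the lines spanned by given functionals. -/
def Gam (ψ : AddChar A k) (e : ι → Zc A k →ₗ[k] k) : Subgroup (MulAut F × Equiv.Perm ι) where
  carrier := {p | ∃ M, Rl ψ p.1 M ∧ ∀ i, ∃ c : k, c ≠ 0 ∧ ∀ ξ, e i (M ξ) = c * e (p.2 i) ξ}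
  one_mem' := ⟨id, fun _ _ => rfl, fun i => ⟨1, one_ne_zero, by simp⟩⟩
  mul_mem' := by
    rintro p q ⟨M, h, a⟩ ⟨M', h', b⟩
    refine ⟨_, h.mul h', fun i => ?_⟩
    obtain ⟨c, hc, b⟩ := b i
    obtain ⟨c', hc', a⟩ := a (q.2 i)
    exact ⟨c * c', mul_ne_zero hc hc', fun ξ => by simp [a, b, mul_assoc]⟩
  inv_mem' := by
    rintro p ⟨M, h, a⟩
    obtain ⟨M', h', b⟩ := h.inv
    refine ⟨M', h', fun i => ?_⟩
    obtain ⟨c, hc, a⟩ := a (p.2⁻¹ i)
    refine ⟨c⁻¹, inv_ne_zero hc, fun ξ => ?_⟩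
    have := a (M' ξ)
    rw [b, show p.2 (p.2⁻¹ i) = i by simp] at this
    rw [Prod.snd_inv, this, inv_mul_cancel_left₀ hc]

theorem gam_all [Finite ι] [DecidableEq ι] (hk : ∀ c : k, ∃ n : ℕ, c = n) {f : ι → Zc A k}
    {e : ι → Zc A k →ₗ[k] k} (hd : ∀ i j, e j (f i) = if i = j then 1 else 0)
    (ht : ∀ i j, i ≠ j → Tv ψ (f i) (e j)) (π : Equiv.Perm ι) : ∃ σ, (σ, π) ∈ Gam ψ e := by
  induction π using Equiv.Perm.swap_induction_on with
  | one => exact ⟨1, one_mem _⟩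
  | swap_mul π i j hij ih =>
    obtain ⟨σ, h⟩ := ih
    obtain ⟨-, τ, h1⟩ := ht i j hij
    obtain ⟨-, ρ, h2⟩ := (ht j i hij.symm).smul2 hk (-1)
    suffices h3 : (τ * ρ * τ, Equiv.swap i j) ∈ Gam ψ e from ⟨_, mul_mem h3 h⟩
    refine ⟨_, (h1.mul h2).mul h1, fun l => ?_⟩
    by_cases a : l = i
    · exact ⟨1, one_ne_zero, fun ξ => by simp [a, hd, hij, hij.symm]⟩
    by_cases b : l = j
    · exact ⟨-1, by simp, fun ξ => by simp [b, hd, hij]⟩
    · exact ⟨1, one_ne_zero, fun ξ => by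
        simp [hd, Ne.symm a, Ne.symm b, Equiv.swap_apply_of_ne_of_ne a b]⟩

theorem involved {Q : Type} [Group Q] [Finite Q] [DecidableEq Q] (hk : ∀ c : k, ∃ n : ℕ, c = n)
    {f : Q → Zc A k} {e : Q → Zc A k →ₗ[k] k} (hd : ∀ i j, e j (f i) = if i = j then 1 else 0)
    (ht : ∀ i j, i ≠ j → Tv ψ (f i) (e j)) :
    ∃ K : Subgroup (F ⧸ derivedSeries F 3), K.Characteristic ∧ K.FiniteIndex ∧
      ∃ (H : Subgroup (MulAut F)) (r : H →* Q), Function.Surjective r ∧ ∀ σ : H,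
        (∃ g : F, ∀ x : F, (QuotientGroup.mk ((σ : MulAut F) x * (g * x * g⁻¹)⁻¹) :
          F ⧸ derivedSeries F 3) ∈ K) → r σ = 1 := by
  obtain ⟨K, h1, h2, h3⟩ := exists_char (derivedSeries F 3) (Hs ψ)
  let G : Subgroup (MulAut F × Q) :=
    (Gam ψ e).comap ((MonoidHom.id _).prodMap (MulAction.toPermHom Q Q))
  have key : ∀ p ∈ G, (∃ g : F, ∀ x : F, (QuotientGroup.mk (p.1 x * (g * x * g⁻¹)⁻¹) :
      F ⧸ derivedSeries F 3) ∈ K) → p.2 = 1 := by
    rintro ⟨σ, q⟩ ⟨M, hM, a⟩ ⟨g, hg⟩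
    by_contra hq
    obtain ⟨c, -, a⟩ := a 1
    obtain ⟨c', hc', z, b⟩ := hM.inner (f 1) fun x => h3 _ (hx_ker _) _ (hg x)
    have d := (ht q 1 hq).cob (fun h0 => by simpa [h0] using hd q q) z
    have := a (f 1)
    simp [b, d, hd, hc', Ne.symm hq] at this
  let i : G →* MulAut F := (MonoidHom.fst _ _).comp G.subtype
  have hi : Function.Injective i := (injective_iff_map_eq_one i).2 fun p hp => by
    have a : p.1.1 = 1 := hp
    exact Subtype.ext (Prod.ext a (key p.1 p.2 ⟨1, fun x => by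
      rw [a, MulAut.one_apply, one_mul, inv_one, mul_one, mul_inv_cancel]; exact K.one_mem⟩))
  refine ⟨K, h1, h2, i.range, ((MonoidHom.snd _ _).comp G.subtype).comp
    (MonoidHom.ofInjective hi).symm.toMonoidHom, fun q => ?_, fun σ hσ => ?_⟩
  · obtain ⟨σ, h⟩ := gam_all hk hd ht (MulAction.toPermHom Q Q q)
    exact ⟨MonoidHom.ofInjective hi ⟨(σ, q), h⟩, by simp⟩
  · obtain ⟨p, rfl⟩ := (MonoidHom.ofInjective hi).surjective σ
    simpa using key p.1 p.2 hσ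

end Pool.Agent.MP_6c678b_al.Inv

end

section

/-! Conjugates of a power of a Dehn twist act on cocycles as transvections; their Gram matrix. -/

set_option autoImplicit false

namespace Pool.Agent.MP_6c678b_al.Inv

open Nil Finset

variable {N : ℕ} [Fact N.Prime] {k : Type} [Field k] {ψ : AddChar (ZMod N) k}

def sg (ψ : AddChar (ZMod N) k) (j : ℕ) (κ : ZMod N) : k := ∑ i ∈ range j, ψ (i * κ)

def mu (N : ℕ) [Fact N.Prime] (κ : ZMod N) : ZMod N := κ * (κ - 1) / 2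

def om (ψ : AddChar (ZMod N) k) (j : ℕ) (ξ : Zc (ZMod N) k) (l : ZMod N) : k :=
  sg ψ j (l - 1) * ξ.1 (l - 1) + ξ.2 l

def ph (ψ : AddChar (ZMod N) k) (j : ℕ) : Zc (ZMod N) k →ₗ[k] k where
  toFun ξ := ∑ l, ψ (-(j * mu N l)) * om ψ j ξ l
  map_add' ξ η := by
    rw [← sum_add_distrib]; exact sum_congr rfl fun l _ => by simp [om]; ring
  map_smul' c ξ := by
    rw [smul_eq_mul, mul_sum]; exact sum_congr rfl fun l _ => by simp [om]; ring

def vv (ψ : AddChar (ZMod N) k) (j : ℕ) : Zc (ZMod N) k :=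
  (fun κ => ψ κ * ψ (j * mu N κ), fun κ => -(sg ψ j (κ - 1) * (ψ (κ - 1) * ψ (j * mu N (κ - 1)))))

theorem hx_pow (ξ : Zc (ZMod N) k) (j : ℕ) :
    hx ψ ξ ga ^ j = ⟨0, j, 0, fun κ => sg ψ j κ * ξ.1 κ⟩ := by
  induction j with
  | zero => ext <;> simp [sg]
  | succ j ih => rw [pow_succ, ih, hx_a]; ext <;> simp [sg, sum_range_succ]; ring

theorem hx_ba (ξ : Zc (ZMod N) k) (j : ℕ) :
    hx ψ ξ (gb * ga ^ j) = ⟨-j, j, 1, om ψ j ξ⟩ := by
  rw [map_mul, map_pow, hx_pow, hx_b]; ext <;> simp [om]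

theorem pow_ba (h2 : (2 : ZMod N) ≠ 0) (j : ZMod N) (ω : ZMod N → k) (n : ℕ) :
    (⟨-j, j, 1, ω⟩ : Hs ψ) ^ n = ⟨-(j * mu N (-(n : ZMod N))), n * j, n,
      fun κ => ∑ i ∈ range n, ψ (j * mu N κ) * (ψ (-(j * mu N (κ - i))) * ω (κ - i))⟩ := by
  induction n with
  | zero => ext <;> simp [mu]
  | succ n ih =>
    rw [pow_succ, ih]
    ext κ
    · simp [mu]; field_simp; ring
    · simp; ring
    · simp
    · simp only [Hs.mul_d, sum_range_succ, ← mul_assoc, ← AddChar.map_add_eq_mul]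
      rw [add_comm]
      congr 3
      simp [mu]; field_simp; ring

theorem sum_range_zmod (G : ZMod N → k) (κ : ZMod N) :
    ∑ i ∈ range N, G (κ - i) = ∑ l, G l := by
  rw [← (Equiv.subLeft κ).sum_comp G]
  exact sum_nbij' (fun i => (i : ZMod N)) ZMod.val (by simp) (by simp [ZMod.val_lt])
    (fun i hi => ZMod.val_cast_of_lt (mem_range.1 hi)) (by simp) (by simp)

theorem twT_pow (j : ℕ) : (twT ^ j) ga = ga ∧ (twT ^ j) gb = gb * ga ^ j := by
  induction j with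
  | zero => simp
  | succ j ih => simp [pow_succ, twT_a, twT_b, ih.1, ih.2, mul_assoc]

theorem twL_pow (j : ℕ) : (twL ^ j) gb = gb ∧ (twL ^ j) ga = ga * gb ^ j := by
  induction j with
  | zero => simp
  | succ j ih => simp [pow_succ, twL_a, twL_b, ih.1, ih.2, mul_assoc]

theorem om_vv (j : ℕ) (ξ : Zc (ZMod N) k) (c : k) : om ψ j (ξ + c • vv ψ j) = om ψ j ξ := by
  ext l; simp [om, vv]; ring

theorem tv_model (h2 : (2 : ZMod N) ≠ 0) (j : ℕ) : Tv ψ (vv ψ j) (ph ψ j) := by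
  refine ⟨by simp [ph, om, vv], twT ^ j * twL ^ N * (twT ^ j)⁻¹, fun ξ x => ?_⟩
  obtain ⟨y, rfl⟩ := (twT ^ j).surjective x
  have : (hx ψ ξ).comp (twT ^ j * twL ^ N : MulAut F).toMonoidHom =
      (hx ψ (ξ + ph ψ j ξ • vv ψ j)).comp (twT ^ j : MulAut F).toMonoidHom := by
    apply hom_ext
    · change hx ψ ξ ((twT ^ j) ((twL ^ N) ga)) = hx ψ _ ((twT ^ j) ga)
      rw [(twL_pow N).2, map_mul, map_pow, (twT_pow j).1, (twT_pow j).2, map_mul, map_pow, hx_ba,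
        pow_ba h2, hx_a, hx_a]
      ext κ
      · simp [mu]
      · simp
      · simp
      · simp only [Hs.mul_d, ← mul_sum]
        rw [sum_range_zmod fun l => ψ (-(j * mu N l)) * om ψ j ξ l]
        simp [vv, ph]; ring
    · change hx ψ ξ ((twT ^ j) ((twL ^ N) gb)) = hx ψ _ ((twT ^ j) gb)
      rw [(twL_pow N).1, (twT_pow j).2, hx_ba, hx_ba, om_vv]
  simpa using DFunLike.congr_fun this y

def cc (ψ : AddChar (ZMod N) k) (κ : ZMod N) : k := ψ κ / (ψ κ - 1)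

def gf (ψ : AddChar (ZMod N) k) (r : ZMod N) : k := ∑ κ, (cc ψ κ - cc ψ (κ - 1)) * ψ (r * mu N κ)

theorem sg_mul (j : ℕ) (κ : ZMod N) : sg ψ j κ * (ψ κ - 1) = ψ (j * κ) - 1 := by
  induction j with
  | zero => simp [sg]
  | succ j ih =>
    rw [sg, sum_range_succ, add_mul, ← sg, ih]
    simp [add_mul, AddChar.map_add_eq_mul]; ring

theorem gram (h2 : (2 : ZMod N) ≠ 0) (hψ : ψ.IsPrimitive) (i j : ℕ) :
    ph ψ j (vv ψ i) = j - i + gf ψ (i - j) := by
  have a : ∑ κ, cc ψ (κ - 1) * ψ ((i - j) * mu N κ) = ∑ κ, cc ψ κ * ψ ((i - j) * mu N (κ + 1)) := by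
    rw [← Equiv.sum_comp (Equiv.addRight 1)]; simp
  have b : (j - i : k) = ∑ κ : ZMod N, if κ = 0 then (j - i : k) else 0 := by simp
  rw [gf, b]
  simp only [sub_mul (cc ψ _), sum_sub_distrib, a]
  rw [← sum_sub_distrib, ← sum_add_distrib]
  change ∑ l, _ = _
  rw [← Equiv.sum_comp (Equiv.addRight 1)]
  refine sum_congr rfl fun κ _ => ?_
  simp only [Equiv.coe_addRight, om, vv, add_sub_cancel_right]
  by_cases h : κ = 0
  · simp [h, cc, mu, sg, sub_eq_add_neg]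
  · have h1 : ψ κ - 1 ≠ 0 := sub_ne_zero.2 (mt (hψ.zmod_char_eq_one_iff N κ).1 h)
    have e1 : ψ ((i - j) * mu N κ) = ψ (-(j * mu N (κ + 1))) * ψ (i * mu N κ) * ψ (j * κ) := by
      simp only [← AddChar.map_add_eq_mul]; congr 1; simp [mu]; field_simp; ring
    have e2 : ψ ((i - j) * mu N (κ + 1)) = ψ (-(j * mu N (κ + 1))) * ψ (i * mu N κ) * ψ (i * κ) := by
      simp only [← AddChar.map_add_eq_mul]; congr 1; simp [mu]; field_simp; ring
    rw [e1, e2, if_neg h, cc, eq_div_of_mul_eq h1 (sg_mul i κ), eq_div_of_mul_eq h1 (sg_mul j κ)]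
    field_simp; ring

theorem mu_eq (h2 : (2 : ZMod N) ≠ 0) {a b : ZMod N} : mu N a = mu N b ↔ a = b ∨ a = 1 - b := by
  rw [mu, mu, div_left_inj' h2, ← sub_eq_zero, ← sub_eq_zero (a := a), ← sub_eq_zero (a := a),
    ← mul_eq_zero]
  constructor <;> intro h <;> linear_combination h

theorem cc_sub (κ : ZMod N) : cc ψ κ - cc ψ (-κ) = (ψ κ + 1) / (ψ κ - 1) := by
  have a : ψ κ ≠ 0 := fun h => by simpa [h] using ψ.map_add_eq_mul κ (-κ)
  rw [cc, cc, AddChar.map_neg_eq_inv]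
  by_cases h : ψ κ - 1 = 0
  · simp [sub_eq_zero.1 h]
  · have : 1 - ψ κ ≠ 0 := fun e => h (by linear_combination -e)
    field_simp; ring

theorem fourier (h2 : (2 : ZMod N) ≠ 0) (hψ : ψ.IsPrimitive) (hN : (N : k) ≠ 0) (h2' : (2 : k) ≠ 0)
    {a : ZMod N} (h0 : a ≠ 0) (h1 : a ≠ 1 - a) : ∑ r, ψ (-(r * mu N a)) * gf ψ r ≠ 0 := by
  have e : ∑ r, ψ (-(r * mu N a)) * gf ψ r =
      ∑ κ ∈ {a, 1 - a}, (cc ψ κ - cc ψ (κ - 1)) * N := by
    simp only [gf, mul_sum]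
    rw [sum_comm, ← sum_subset (subset_univ {a, 1 - a})]
    all_goals
      have q : ∀ κ, ∑ r, ψ (-(r * mu N a)) * ((cc ψ κ - cc ψ (κ - 1)) * ψ (r * mu N κ)) =
          (cc ψ κ - cc ψ (κ - 1)) * if mu N κ = mu N a then N else 0 := fun κ => by
        have := AddChar.sum_mulShift (mu N κ - mu N a) hψ
        simp only [sub_eq_zero, ZMod.card] at this
        rw [← this, mul_sum]
        refine sum_congr rfl fun r _ => ?_
        rw [mul_left_comm, ← AddChar.map_add_eq_mul]; congr 2; ring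
    · exact sum_congr rfl fun κ h => by
        rw [q, if_pos ((mu_eq h2).2 (by simpa using h))]
    · exact fun κ _ h => by
        rw [q, if_neg (mt (mu_eq h2).1 (by simpa using h))]; simp
  have inj : ∀ x y, ψ x = ψ y → x = y := fun x y h => by
    rw [← sub_eq_zero, ← hψ.zmod_char_eq_one_iff N, AddChar.map_sub_eq_div, h, div_self]
    exact fun h => by simpa [h] using ψ.map_add_eq_mul y (-y)
  rw [e, sum_pair h1, ← add_mul]
  refine mul_ne_zero (fun h => ?_) hN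
  have h3 : (ψ a + 1) / (ψ a - 1) = (ψ (a - 1) + 1) / (ψ (a - 1) - 1) := by
    rw [← cc_sub, ← cc_sub, neg_sub]
    rw [sub_sub_cancel_left] at h
    linear_combination h
  have h4 : ψ a - 1 ≠ 0 := sub_ne_zero.2 (mt (hψ.zmod_char_eq_one_iff N a).1 h0)
  by_cases h5 : a = 1
  · subst h5
    simp only [sub_self, AddChar.map_zero_eq_one, div_zero, div_eq_zero_iff, h4, or_false] at h3
    refine h2 ((hψ.zmod_char_eq_one_iff N 2).1 ?_)
    rw [← one_add_one_eq_two, AddChar.map_add_eq_mul]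
    linear_combination (ψ 1 - 1) * h3
  · have h6 : ψ (a - 1) - 1 ≠ 0 :=
      sub_ne_zero.2 (mt (hψ.zmod_char_eq_one_iff N _).1 (sub_ne_zero.2 h5))
    rw [div_eq_div_iff h4 h6] at h3
    have := inj a (a - 1) (mul_left_cancel₀ h2' (by linear_combination -h3))
    simp [eq_sub_iff_add_eq] at this

theorem not_odd (h2 : (2 : ZMod N) ≠ 0) (hψ : ψ.IsPrimitive) (hN : (N : k) ≠ 0)
    (h2' : (2 : k) ≠ 0) : ∃ s, ph ψ 0 (vv ψ s) + ph ψ s (vv ψ 0) ≠ 0 := by
  by_contra h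
  push Not at h
  have a : ∀ r, gf ψ r + gf ψ (-r) = 0 := fun r => by
    have := h r.val
    simp [gram h2 hψ] at this
    linear_combination this
  refine fourier h2 hψ hN h2' (a := 1) one_ne_zero (by simp) (mul_left_cancel₀ h2' ?_)
  have b := Equiv.sum_comp (Equiv.neg (ZMod N)) (gf ψ)
  have c : ∑ r, (gf ψ r + gf ψ (-r)) = 0 := by simp [a]
  rw [sum_add_distrib] at c
  simp only [mu, sub_self, mul_zero, zero_div, neg_zero, AddChar.map_zero_eq_one, one_mul]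
  simp only [Equiv.neg_apply] at b
  linear_combination c - b

theorem norank (hψ : ψ.IsPrimitive) (hN : (N : k) ≠ 0) (h2' : (2 : k) ≠ 0) {m : ℕ}
    (hm : 2 * m + 3 < N) (a b : ℕ → Fin m → k) :
    ¬ ∀ i j, ph ψ j (vv ψ i) = ∑ t, a i t * b j t := by
  intro h
  have nz : ∀ n : ℕ, 0 < n → n < N → (n : ZMod N) ≠ 0 := fun n h1 h2 e =>
    absurd (Nat.le_of_dvd h1 ((ZMod.natCast_eq_zero_iff n N).1 e)) (by omega)
  have h2 : (2 : ZMod N) ≠ 0 := by exact_mod_cast nz 2 (by omega) (by omega)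
  obtain ⟨x, hx, j0, hj0⟩ := Fintype.not_linearIndependent_iff.1
    (fun hl : LinearIndependent k fun j : Fin (m + 1) => b j => by
      simpa using hl.fintype_card_le_finrank)
  have h1 : ∀ i : ℕ, ∑ j : Fin (m + 1), x j * (((j : ℕ) : k) - i + gf ψ (i - (j : ℕ))) = 0 := by
    intro i
    simp only [← gram h2 hψ, h, mul_sum]
    rw [sum_comm]
    refine sum_eq_zero fun t _ => ?_
    have := congrFun hx t
    simp only [Finset.sum_apply, Pi.smul_apply, smul_eq_mul, Pi.zero_apply] at this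
    simp only [mul_left_comm (x _), ← mul_sum, this, mul_zero]
  have h3 : ∑ j, x j = 0 := by
    have a := h1 0
    have b := h1 N
    simp only [mul_add, mul_sub, sum_add_distrib, sum_sub_distrib, ← sum_mul, ZMod.natCast_self,
      Nat.cast_zero] at a b
    exact mul_right_cancel₀ hN (by linear_combination a - b)
  have h4 : ∀ r : ZMod N, ∑ j : Fin (m + 1), x j * gf ψ (r - (j : ℕ)) =
      -∑ j : Fin (m + 1), x j * (j : ℕ) := fun r => by
    have a := h1 r.val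
    simp only [mul_add, mul_sub, sum_add_distrib, sum_sub_distrib, ← sum_mul, h3,
      ZMod.natCast_val, ZMod.cast_id', id] at a
    linear_combination a
  have ne : ∀ n n' : Fin (m + 1), ((n : ℕ) + 2 : ZMod N) ≠ 1 - ((n' : ℕ) + 2) := fun n n' e =>
    nz (n + n' + 3) (by omega) (by omega) (by push_cast; linear_combination e)
  refine hj0 (congrFun (Matrix.eq_zero_of_forall_index_sum_mul_pow_eq_zero
    (f := fun n : Fin (m + 1) => ψ (-mu N ((n : ℕ) + 2 : ZMod N))) (fun n n' e => ?_)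
    fun n => ?_) j0)
  · have e1 : mu N ((n : ℕ) + 2 : ZMod N) = mu N ((n' : ℕ) + 2) := by
      rw [← sub_eq_zero, ← hψ.zmod_char_eq_one_iff N, sub_eq_add_neg, AddChar.map_add_eq_mul,
        ← show ψ _ = ψ _ from e, ← AddChar.map_add_eq_mul]
      simp
    have e2 := ((mu_eq h2).1 e1).resolve_right (ne n n')
    rw [add_left_inj, ZMod.natCast_eq_natCast_iff', Nat.mod_eq_of_lt (by omega),
      Nat.mod_eq_of_lt (by omega)] at e2
    exact Fin.ext e2
  · have n0 : ((n : ℕ) + 2 : ZMod N) ≠ 0 := by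
      exact_mod_cast nz (n + 2) (by omega) (by omega)
    have n1 : mu N ((n : ℕ) + 2 : ZMod N) ≠ mu N 0 := fun e => by
      rcases (mu_eq h2).1 e with e | e
      · exact n0 e
      · exact nz (n + 1) (by omega) (by omega) (by push_cast; linear_combination e)
    refine mul_right_cancel₀ (fourier h2 hψ hN h2' n0 (ne n n)) ?_
    generalize mu N ((n : ℕ) + 2 : ZMod N) = t at n1 ⊢
    have s := AddChar.sum_mulShift (-t) hψ
    rw [if_neg (by simpa [mu] using n1)] at s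
    have u : ∑ r, ψ (r * -t) * ∑ j : Fin (m + 1), x j * gf ψ (r - (j : ℕ)) = 0 := by
      simp only [h4, ← sum_mul, s]; simp
    rw [zero_mul, ← u, sum_mul]
    simp only [mul_sum]
    rw [sum_comm (s := univ) (t := univ) (f := fun (r : ZMod N) (j : Fin (m + 1)) => _)]
    refine sum_congr rfl fun j _ => ?_
    rw [← (Equiv.subRight ((j : ℕ) : ZMod N)).sum_comp]
    refine sum_congr rfl fun r _ => ?_
    rw [← AddChar.map_nsmul_eq_pow, mul_assoc, ← mul_assoc (ψ _), ← AddChar.map_add_eq_mul,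
      mul_left_comm]
    congr 3
    simp; ring

theorem all_involved (Q : Type) [Group Q] [Finite Q] :
    ∃ K : Subgroup (F ⧸ derivedSeries F 3), K.Characteristic ∧ K.FiniteIndex ∧
      ∃ (H : Subgroup (MulAut F)) (r : H →* Q), Function.Surjective r ∧ ∀ σ : H,
        (∃ g : F, ∀ x : F, (QuotientGroup.mk ((σ : MulAut F) x * (g * x * g⁻¹)⁻¹) :
          F ⧸ derivedSeries F 3) ∈ K) → r σ = 1 := by
  classical
  obtain ⟨n, ⟨ι⟩⟩ := Finite.exists_equiv_fin Q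
  obtain ⟨N, hN1, hN⟩ := Nat.exists_infinite_primes (2 * (n + 3) + 4)
  obtain ⟨p, hp, hp1, hp2⟩ := Nat.exists_prime_gt_modEq_one N hN.ne_zero
  have := Fact.mk hN
  have := Fact.mk hp
  have nz : ∀ q a : ℕ, 0 < a → a < q → (a : ZMod q) ≠ 0 := fun q a h1 h2 e =>
    absurd (Nat.le_of_dvd h1 ((ZMod.natCast_eq_zero_iff a q).1 e)) (by omega)
  have h2 : (2 : ZMod N) ≠ 0 := by exact_mod_cast nz N 2 (by omega) (by omega)
  have h2' : (2 : ZMod p) ≠ 0 := by exact_mod_cast nz p 2 (by omega) (by omega)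
  have hN' : (N : ZMod p) ≠ 0 := nz p N (by omega) hp1
  obtain ⟨ζ, hζ⟩ : ∃ ζ : (ZMod p)ˣ, orderOf ζ = N := by
    refine exists_prime_orderOf_dvd_card N ?_
    rw [ZMod.card_units]
    exact (Nat.modEq_iff_dvd' hp.one_le).1 hp2.symm
  have hζ' : IsPrimitiveRoot (ζ : ZMod p) N :=
    IsPrimitiveRoot.coe_units_iff.2 (hζ ▸ IsPrimitiveRoot.orderOf ζ)
  obtain ⟨ψ, hψ⟩ : ∃ ψ : AddChar (ZMod N) (ZMod p), ψ.IsPrimitive :=
    ⟨_, AddChar.zmodChar_primitive_of_primitive_root N hζ'⟩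
  have hk : ∀ c : ZMod p, ∃ a : ℕ, c = a := fun c => ⟨c.val, by simp⟩
  have q : Sq (ts ψ hk) (vv ψ) (ph ψ) N (-N) :=
    ⟨tv_model h2, fun i j => by simp [ts, gram h2 hψ]; ring,
      fun i j => by simp [ts, gram h2 hψ]; ring, neg_ne_zero.2 hN'⟩
  obtain ⟨s, hs⟩ := not_odd h2 hψ hN' h2'
  obtain ⟨f, e, h, -⟩ := q.has (s := s) hs n fun m hm => norank hψ hN' h2' (by omega)
  let c : Q → Fin (n + 3) := fun x => (ι x).castAdd 3
  have hc : Function.Injective c := (Fin.castAdd_injective _ _).comp ι.injective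
  exact involved (ψ := ψ) hk (f := f ∘ c) (e := e ∘ c)
    (fun i j => by simpa [ts, hc.eq_iff] using h.dual (c i) (c j))
    fun i j hij => h.el _ _ (hc.ne hij)

end Pool.Agent.MP_6c678b_al.Inv

end
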